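import Mathlib
import Pool.Agent.H28.MZ.Targets

/-!
# Off-diagonal terms of the first sum (`T_O1`)
-/

set_option autoImplicit false

open Complex MeasureTheory Set

namespace Pool.Agent.H42.PZ

open Pool.Agent.H23.GLH (PrimChar)
open Pool.Agent.H28.MZ

lemma norm_co_le (π : PrimChar) (n : ℕ) : ‖co π n‖ ≤ 1 := by
  unfold co
  split_ifs
  · simp
  · exact DirichletCharacter.norm_le_one _ _

lemma co_zero' (π : PrimChar) : co π 0 = 0 := by
  unfold co
  rw [if_pos rfl]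

lemma norm_ei (x : ℝ) : ‖ei x‖ = 1 := by
  unfold ei
  exact Complex.norm_exp_ofReal_mul_I x

lemma ei_add (x y : ℝ) : ei (x + y) = ei x * ei y := by
  unfold ei
  rw [← Complex.exp_add]
  congr 1
  push_cast
  ring

lemma ei_zero : ei 0 = 1 := by unfold ei; simp

lemma continuous_ei_mul (y : ℝ) : Continuous (fun t : ℝ => ei (t * y)) := by
  unfold ei
  fun_prop

/-- the weight `(m n)^{-5/2}` -/
noncomputable def zz (p : ℕ × ℕ) : ℝ := ((p.1 : ℝ) * p.2) ^ (-(5 / 2) : ℝ)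

lemma summable_zz : Summable zz := by
  have h1 : Summable (fun n : ℕ => ((n : ℝ)) ^ (-(5 / 2) : ℝ)) :=
    Real.summable_nat_rpow.mpr (by norm_num)
  have h2 := h1.mul_of_nonneg h1 (fun n => Real.rpow_nonneg (Nat.cast_nonneg n) _)
    (fun n => Real.rpow_nonneg (Nat.cast_nonneg n) _)
  apply h2.congr
  intro p
  unfold zz
  rw [Real.mul_rpow (Nat.cast_nonneg _) (Nat.cast_nonneg _)]

lemma zz_nonneg (p : ℕ × ℕ) : 0 ≤ zz p := by unfold zz; positivity

lemma zz_pos {p : ℕ × ℕ} (h1 : 1 ≤ p.1) (h2 : 1 ≤ p.2) : 1 ≤ (p.1 : ℝ) * p.2 := by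
  have e1 : (1 : ℝ) ≤ p.1 := by exact_mod_cast h1
  have e2 : (1 : ℝ) ≤ p.2 := by exact_mod_cast h2
  nlinarith

/-- logarithm of a quotient of products -/
lemma log_diff {a b h k : ℕ} (ha : 1 ≤ a) (hb : 1 ≤ b) (hh : 1 ≤ h) (hk : 1 ≤ k) :
    (Real.log b - Real.log a) + (Real.log k - Real.log h) =
      Real.log ((b * k : ℕ) : ℝ) - Real.log ((a * h : ℕ) : ℝ) := by
  have ha' : (a : ℝ) ≠ 0 := by exact_mod_cast (by omega : a ≠ 0)
  have hb' : (b : ℝ) ≠ 0 := by exact_mod_cast (by omega : b ≠ 0)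
  have hh' : (h : ℝ) ≠ 0 := by exact_mod_cast (by omega : h ≠ 0)
  have hk' : (k : ℝ) ≠ 0 := by exact_mod_cast (by omega : k ≠ 0)
  push_cast
  rw [Real.log_mul hb' hk', Real.log_mul ha' hh']
  ring

/-- decay of `(1 + u |y|)^{-N}` at the logarithms of different products -/
lemma decay_bound (hLG : T_LG) (N : ℕ) {u : ℝ} (hu : 0 < u) {a b h k : ℕ} (ha : 1 ≤ a) (hb : 1 ≤ b)
    (hh : 1 ≤ h) (hk : 1 ≤ k) (hne : a * h ≠ b * k) :
    (1 + u * |(Real.log b - Real.log a) + (Real.log k - Real.log h)|) ^ (-(N : ℝ)) ≤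
      2 ^ N * u ^ (-(N : ℝ)) * (((a : ℝ) * b) ^ ((N : ℝ) / 2) * ((h : ℝ) * k) ^ ((N : ℝ) / 2)) := by
  rw [log_diff ha hb hh hk]
  have ha' : (0 : ℝ) < a := by exact_mod_cast (by omega : 0 < a)
  have hb' : (0 : ℝ) < b := by exact_mod_cast (by omega : 0 < b)
  have hh' : (0 : ℝ) < h := by exact_mod_cast (by omega : 0 < h)
  have hk' : (0 : ℝ) < k := by exact_mod_cast (by omega : 0 < k)
  have h1 := hLG (b * k) (a * h) (Nat.mul_pos hb hk) (Nat.mul_pos ha hh) (Ne.symm hne)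
  set y := Real.log ((b * k : ℕ) : ℝ) - Real.log ((a * h : ℕ) : ℝ) with hy
  set X : ℝ := (((b * k : ℕ) : ℝ) * ((a * h : ℕ) : ℝ)) with hX
  have hX0 : 0 < X := by rw [hX]; push_cast; positivity
  have hsq : 0 < Real.sqrt X := Real.sqrt_pos.mpr hX0
  have h2 : u / (2 * Real.sqrt X) ≤ 1 + u * |y| := by
    have : u * (1 / (2 * Real.sqrt X)) ≤ u * |y| := by gcongr
    rw [mul_one_div] at this
    linarith
  have h3 : 0 < u / (2 * Real.sqrt X) := by positivity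
  calc (1 + u * |y|) ^ (-(N : ℝ)) ≤ (u / (2 * Real.sqrt X)) ^ (-(N : ℝ)) :=
        Real.rpow_le_rpow_of_nonpos h3 h2 (by simp)
    _ = 2 ^ N * u ^ (-(N : ℝ)) * (((a : ℝ) * b) ^ ((N : ℝ) / 2) * ((h : ℝ) * k) ^ ((N : ℝ) / 2)) := by
        rw [Real.div_rpow hu.le (by positivity), Real.rpow_neg (by positivity : 0 ≤ 2 * Real.sqrt X),
          Real.mul_rpow (by norm_num) hsq.le]
        have e1 : Real.sqrt X ^ (N : ℝ) = ((a : ℝ) * b) ^ ((N : ℝ) / 2) * ((h : ℝ) * k) ^ ((N : ℝ) / 2) := by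
          rw [Real.sqrt_eq_rpow, ← Real.rpow_mul hX0.le, ← Real.mul_rpow (by positivity) (by positivity)]
          congr 1
          · rw [hX]; push_cast; ring
          · ring
        rw [e1, Real.rpow_natCast 2 N]
        field_simp

/-- the coefficients of the first sum -/
noncomputable def aa (π : PrimChar) (s ξ : ℝ) (p : ℕ × ℕ) : ℂ :=
  co π p.1 * (starRingEnd ℂ) (co π p.2) * ((((p.1 : ℝ) * p.2) ^ (-s) * V ((p.1 : ℝ) * p.2 * ξ) : ℝ) : ℂ)

lemma aa_zero (π : PrimChar) (s ξ : ℝ) {p : ℕ × ℕ} (h : ¬ (1 ≤ p.1 ∧ 1 ≤ p.2)) : aa π s ξ p = 0 := by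
  unfold aa
  rcases Nat.eq_zero_or_pos p.1 with h1 | h1
  · rw [h1, co_zero']; simp
  · rcases Nat.eq_zero_or_pos p.2 with h2 | h2
    · rw [h2, co_zero']; simp
    · exact absurd ⟨h1, h2⟩ h

lemma aa_norm (π : PrimChar) (s ξ : ℝ) (p : ℕ × ℕ) (hV : 0 ≤ V ((p.1 : ℝ) * p.2 * ξ)) :
    ‖aa π s ξ p‖ ≤ ((p.1 : ℝ) * p.2) ^ (-s) * V ((p.1 : ℝ) * p.2 * ξ) := by
  unfold aa
  rw [norm_mul, norm_mul, RCLike.norm_conj, Complex.norm_real, Real.norm_of_nonneg (by positivity)]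
  have h1 := norm_co_le π p.1
  have h2 := norm_co_le π p.2
  have h3 : ‖co π p.1‖ * ‖co π p.2‖ ≤ 1 := mul_le_one₀ h1 (norm_nonneg _) h2
  calc ‖co π p.1‖ * ‖co π p.2‖ * (((p.1 : ℝ) * p.2) ^ (-s) * V ((p.1 : ℝ) * p.2 * ξ))
      ≤ 1 * (((p.1 : ℝ) * p.2) ^ (-s) * V ((p.1 : ℝ) * p.2 * ξ)) := by gcongr
    _ = _ := one_mul _

theorem o1 (hVV : T_VV) (hLG : T_LG) (hWF : T_WF) : T_O1 := by
  classical
  intro N π hN
  obtain ⟨hV01, _, _, hVd, _⟩ := hVV
  obtain ⟨hW1, _, hW3⟩ := hWF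
  have hNr : (4 : ℝ) ≤ N := by exact_mod_cast hN
  obtain ⟨CV, hCV, hV⟩ := hVd ((N : ℝ) / 2 + 2) (by positivity)
  obtain ⟨CW, hCW, hW⟩ := hW3 N 0 (by omega)
  set Z : ℝ := ∑' p, zz p with hZ
  have hZ0 : 0 ≤ Z := tsum_nonneg zz_nonneg
  refine ⟨CV * CW * 2 ^ N * (Z + 1), by positivity, ?_⟩
  intro σ u h k hσ1 hσ2 hu hh hk
  have hu0 : 0 < u := by linarith
  obtain ⟨hWint, hWu⟩ := hW1 N u (by omega) hu0
  have hh' : (0 : ℝ) < h := by exact_mod_cast (by omega : 0 < h)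
  have hk' : (0 : ℝ) < k := by exact_mod_cast (by omega : 0 < k)
  set κ : ℝ := Real.log k - Real.log h with hκ
  -- bounds for the coefficients
  have ha1 : ∀ p : ℕ × ℕ, 1 ≤ p.1 → 1 ≤ p.2 → ‖aa π σ (1 / u) p‖ ≤
      CV * u ^ ((N : ℝ) / 2 + 2) * ((p.1 : ℝ) * p.2) ^ (-(5 / 2) - (N : ℝ) / 2) := by
    intro p h1 h2
    have hp := zz_pos h1 h2
    have hp0 : 0 < (p.1 : ℝ) * p.2 := by linarith
    have hx0 : 0 < (p.1 : ℝ) * p.2 * (1 / u) := by positivity
    refine (aa_norm π σ (1 / u) p (hV01 _ hx0).1).trans ?_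
    have e1 := hV _ hx0
    have e2 : ((p.1 : ℝ) * p.2 * (1 / u)) ^ (-((N : ℝ) / 2 + 2))
        = ((p.1 : ℝ) * p.2) ^ (-((N : ℝ) / 2 + 2)) * u ^ ((N : ℝ) / 2 + 2) := by
      rw [Real.mul_rpow hp0.le (by positivity), one_div, Real.inv_rpow hu0.le, Real.rpow_neg hu0.le,
        inv_inv]
    rw [e2] at e1
    have e3 : ((p.1 : ℝ) * p.2) ^ (-σ) * ((p.1 : ℝ) * p.2) ^ (-((N : ℝ) / 2 + 2))
        ≤ ((p.1 : ℝ) * p.2) ^ (-(5 / 2) - (N : ℝ) / 2) := by
      rw [← Real.rpow_add hp0]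
      apply Real.rpow_le_rpow_of_exponent_le hp
      linarith
    calc ((p.1 : ℝ) * p.2) ^ (-σ) * V ((p.1 : ℝ) * p.2 * (1 / u))
        ≤ ((p.1 : ℝ) * p.2) ^ (-σ) * (CV * (((p.1 : ℝ) * p.2) ^ (-((N : ℝ) / 2 + 2)) * u ^ ((N : ℝ) / 2 + 2))) := by
          gcongr
      _ = CV * u ^ ((N : ℝ) / 2 + 2) * (((p.1 : ℝ) * p.2) ^ (-σ) * ((p.1 : ℝ) * p.2) ^ (-((N : ℝ) / 2 + 2))) := by
          ring
      _ ≤ _ := by gcongr
  have ha2 : ∀ p : ℕ × ℕ, ‖aa π σ (1 / u) p‖ ≤ CV * u ^ ((N : ℝ) / 2 + 2) * zz p := by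
    intro p
    by_cases hp : 1 ≤ p.1 ∧ 1 ≤ p.2
    · refine (ha1 p hp.1 hp.2).trans ?_
      unfold zz
      gcongr
      · exact zz_pos hp.1 hp.2
      · linarith
    · rw [aa_zero π σ _ hp, norm_zero]
      have := zz_nonneg p
      positivity
  have hsa : Summable (fun p => ‖aa π σ (1 / u) p‖) :=
    Summable.of_nonneg_of_le (fun _ => norm_nonneg _) ha2 (summable_zz.mul_left _)
  have hSSeq : ∀ t, SS π σ (1 / u) t = ∑' p : ℕ × ℕ, aa π σ (1 / u) p * ei (t * (Real.log p.2 - Real.log p.1)) :=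
    fun t => rfl
  have hSScont : Continuous (fun t => SS π σ (1 / u) t) := by
    simp_rw [hSSeq]
    apply continuous_tsum (u := fun p => ‖aa π σ (1 / u) p‖) _ hsa
    · intro p t
      rw [norm_mul, norm_ei, mul_one]
    · intro p
      exact continuous_const.mul (continuous_ei_mul _)
  have hSSb : ∀ t, ‖SS π σ (1 / u) t‖ ≤ ∑' p, ‖aa π σ (1 / u) p‖ := by
    intro t
    rw [hSSeq]
    have h1 : Summable (fun p : ℕ × ℕ => ‖aa π σ (1 / u) p * ei (t * (Real.log p.2 - Real.log p.1))‖) := by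
      simp_rw [norm_mul, norm_ei, mul_one]
      exact hsa
    refine (norm_tsum_le_tsum_norm h1).trans ?_
    simp_rw [norm_mul, norm_ei, mul_one]
    exact le_rfl
  have hWintC : IntegrableOn (fun t : ℝ => ((W N u t : ℝ) : ℂ)) (Ioi 0) := hWint.ofReal
  constructor
  · apply Integrable.mul_bdd (c := ∑' p, ‖aa π σ (1 / u) p‖) hWintC
      hSScont.aestronglyMeasurable
    filter_upwards with t
    exact hSSb t
  -- the interchange
  set I0 : ℝ → ℂ := fun y => ∫ t in Ioi (0 : ℝ), ((W N u t : ℝ) : ℂ) * ei (t * y) with hI0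
  have hW0 : ∀ t, 0 < t → 0 ≤ W N u t := by
    intro t ht
    unfold W
    have : 0 < Real.Gamma N := Real.Gamma_pos_of_pos (by linarith)
    positivity
  have hintF : ∀ p : ℕ × ℕ, Integrable (fun t : ℝ => ((W N u t : ℝ) : ℂ) *
      (aa π σ (1 / u) p * ei (t * (Real.log p.2 - Real.log p.1))) * ei (t * κ)) (volume.restrict (Ioi 0)) := by
    intro p
    have h1 : (fun t : ℝ => ((W N u t : ℝ) : ℂ) *
      (aa π σ (1 / u) p * ei (t * (Real.log p.2 - Real.log p.1))) * ei (t * κ))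
      = fun t : ℝ => ((W N u t : ℝ) : ℂ) *
      ((aa π σ (1 / u) p * ei (t * (Real.log p.2 - Real.log p.1))) * ei (t * κ)) := by
      funext t; ring
    rw [h1]
    apply Integrable.mul_bdd (c := ‖aa π σ (1 / u) p‖) hWintC
    · exact ((continuous_const.mul (continuous_ei_mul _)).mul (continuous_ei_mul _)).aestronglyMeasurable
    · filter_upwards with t
      rw [norm_mul, norm_mul, norm_ei, norm_ei, mul_one, mul_one]
  have hnormF : ∀ p : ℕ × ℕ, (∫ t in Ioi (0 : ℝ), ‖((W N u t : ℝ) : ℂ) *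
      (aa π σ (1 / u) p * ei (t * (Real.log p.2 - Real.log p.1))) * ei (t * κ)‖) = u * ‖aa π σ (1 / u) p‖ := by
    intro p
    have h1 : ∫ t in Ioi (0 : ℝ), ‖((W N u t : ℝ) : ℂ) *
      (aa π σ (1 / u) p * ei (t * (Real.log p.2 - Real.log p.1))) * ei (t * κ)‖
      = ∫ t in Ioi (0 : ℝ), W N u t * ‖aa π σ (1 / u) p‖ := by
      apply setIntegral_congr_fun measurableSet_Ioi
      intro t ht
      simp only
      rw [norm_mul, norm_mul, norm_mul, norm_ei, norm_ei, mul_one, mul_one, Complex.norm_real,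
        Real.norm_of_nonneg (hW0 t ht)]
    rw [h1, integral_mul_const, hWu]
  have hHS := hasSum_integral_of_summable_integral_norm hintF (by
    simp_rw [hnormF]
    exact hsa.mul_left u)
  have hIp : ∀ p : ℕ × ℕ, ∫ t in Ioi (0 : ℝ), ((W N u t : ℝ) : ℂ) *
      (aa π σ (1 / u) p * ei (t * (Real.log p.2 - Real.log p.1))) * ei (t * κ)
      = aa π σ (1 / u) p * I0 ((Real.log p.2 - Real.log p.1) + κ) := by
    intro p
    rw [hI0]
    simp only
    rw [← integral_const_mul]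
    apply setIntegral_congr_fun measurableSet_Ioi
    intro t _
    simp only
    rw [mul_add t, ei_add]
    ring
  have hint : ∫ t in Ioi (0 : ℝ), ((W N u t : ℝ) : ℂ) * SS π σ (1 / u) t * ei (t * κ)
      = ∑' p : ℕ × ℕ, aa π σ (1 / u) p * I0 ((Real.log p.2 - Real.log p.1) + κ) := by
    rw [← tsum_congr hIp, hHS.tsum_eq]
    apply setIntegral_congr_fun measurableSet_Ioi
    intro t _
    simp only
    rw [hSSeq, tsum_mul_right, tsum_mul_left]
  have hDS : (u : ℂ) * DS π h k σ (1 / u)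
      = ∑' p : ℕ × ℕ, if p.1 * h = p.2 * k then aa π σ (1 / u) p * u else 0 := by
    unfold DS
    rw [← tsum_mul_left]
    apply tsum_congr
    intro p
    by_cases hc : p.1 * h = p.2 * k
    · rw [if_pos hc, if_pos hc]
      unfold aa
      ring
    · rw [if_neg hc, if_neg hc, mul_zero]
  have hI0b : ∀ y, ‖I0 y‖ ≤ CW * u * (1 + u * |y|) ^ (-(N : ℝ)) := by
    intro y
    have h1 := hW u y 0 hu0 (by simp) (by simp)
    simp only [Complex.cpow_zero, mul_one, Complex.zero_re, add_zero, Real.rpow_one,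
      Complex.zero_im, abs_zero, mul_zero, Real.exp_zero] at h1
    exact h1
  have hI0z : I0 0 = u := by
    rw [hI0]
    simp only [mul_zero, ei_zero, mul_one]
    rw [integral_complex_ofReal, hWu]
  -- summability
  have hsum1 : Summable (fun p : ℕ × ℕ => aa π σ (1 / u) p * I0 ((Real.log p.2 - Real.log p.1) + κ)) := by
    have := hHS.summable
    exact this.congr hIp
  have hsum2 : Summable (fun p : ℕ × ℕ => if p.1 * h = p.2 * k then aa π σ (1 / u) p * u else 0) := by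
    apply Summable.of_norm_bounded (g := fun p => ‖aa π σ (1 / u) p‖ * u) (hsa.mul_right u)
    intro p
    split_ifs
    · rw [norm_mul, Complex.norm_real, Real.norm_of_nonneg hu0.le]
    · rw [norm_zero]; positivity
  have hterm : ∀ p : ℕ × ℕ, ‖aa π σ (1 / u) p * I0 ((Real.log p.2 - Real.log p.1) + κ)
      - (if p.1 * h = p.2 * k then aa π σ (1 / u) p * u else 0)‖ ≤
      CV * CW * 2 ^ N * (u ^ (3 - (N : ℝ) / 2) * ((h : ℝ) * k) ^ ((N : ℝ) / 2)) * zz p := by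
    intro p
    have hnn : 0 ≤ CV * CW * 2 ^ N * (u ^ (3 - (N : ℝ) / 2) * ((h : ℝ) * k) ^ ((N : ℝ) / 2)) * zz p := by
      have := zz_nonneg p
      positivity
    by_cases hp : 1 ≤ p.1 ∧ 1 ≤ p.2
    · by_cases hc : p.1 * h = p.2 * k
      · rw [if_pos hc]
        have e1 : (Real.log p.2 - Real.log p.1) + κ = 0 := by
          rw [hκ, log_diff hp.1 hp.2 hh hk, hc, sub_self]
        rw [e1, hI0z, sub_self, norm_zero]
        exact hnn
      · rw [if_neg hc, sub_zero, norm_mul]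
        have hp0 : 0 < (p.1 : ℝ) * p.2 := by linarith [zz_pos hp.1 hp.2]
        have e1 := ha1 p hp.1 hp.2
        have e2 := hI0b ((Real.log p.2 - Real.log p.1) + κ)
        have e3 := decay_bound hLG N hu0 hp.1 hp.2 hh hk hc
        rw [← hκ] at e3
        have e4 : u ^ ((N : ℝ) / 2 + 2) * (u * u ^ (-(N : ℝ))) = u ^ (3 - (N : ℝ) / 2) := by
          nth_rewrite 2 [← Real.rpow_one u]
          rw [← Real.rpow_add hu0, ← Real.rpow_add hu0]
          congr 1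
          ring
        have e5 : ((p.1 : ℝ) * p.2) ^ (-(5 / 2) - (N : ℝ) / 2) * ((p.1 : ℝ) * p.2) ^ ((N : ℝ) / 2) = zz p := by
          unfold zz
          rw [← Real.rpow_add hp0]
          congr 1
          ring
        calc ‖aa π σ (1 / u) p‖ * ‖I0 ((Real.log p.2 - Real.log p.1) + κ)‖
            ≤ (CV * u ^ ((N : ℝ) / 2 + 2) * ((p.1 : ℝ) * p.2) ^ (-(5 / 2) - (N : ℝ) / 2)) *
              (CW * u * (2 ^ N * u ^ (-(N : ℝ)) * (((p.1 : ℝ) * p.2) ^ ((N : ℝ) / 2) * ((h : ℝ) * k) ^ ((N : ℝ) / 2)))) := by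
              gcongr
              refine e2.trans ?_
              gcongr
          _ = CV * CW * 2 ^ N * ((u ^ ((N : ℝ) / 2 + 2) * (u * u ^ (-(N : ℝ)))) * ((h : ℝ) * k) ^ ((N : ℝ) / 2))
              * (((p.1 : ℝ) * p.2) ^ (-(5 / 2) - (N : ℝ) / 2) * ((p.1 : ℝ) * p.2) ^ ((N : ℝ) / 2)) := by ring
          _ = _ := by rw [e4, e5]
    · rw [aa_zero π σ _ hp]
      simp only [zero_mul, ite_self, sub_self, norm_zero]
      exact hnn
  rw [hint, hDS, ← hsum1.tsum_sub hsum2]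
  have hsn : Summable (fun p : ℕ × ℕ => ‖aa π σ (1 / u) p * I0 ((Real.log p.2 - Real.log p.1) + κ)
      - (if p.1 * h = p.2 * k then aa π σ (1 / u) p * u else 0)‖) :=
    Summable.of_nonneg_of_le (fun _ => norm_nonneg _) hterm (summable_zz.mul_left _)
  refine (norm_tsum_le_tsum_norm hsn).trans ?_
  refine (hsn.tsum_le_tsum hterm (summable_zz.mul_left _)).trans ?_
  rw [tsum_mul_left, ← hZ]
  have hnn : 0 ≤ u ^ (3 - (N : ℝ) / 2) * ((h : ℝ) * k) ^ ((N : ℝ) / 2) := by positivity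
  calc CV * CW * 2 ^ N * (u ^ (3 - (N : ℝ) / 2) * ((h : ℝ) * k) ^ ((N : ℝ) / 2)) * Z
      ≤ CV * CW * 2 ^ N * (u ^ (3 - (N : ℝ) / 2) * ((h : ℝ) * k) ^ ((N : ℝ) / 2)) * (Z + 1) := by
        gcongr
        linarith
    _ = _ := by ring

end Pool.Agent.H42.PZ
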