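import Mathlib
import Pool.Agent.H28.MZ.Targets
import Pool.Agent.H42.PZ.O1

/-!
# Off-diagonal terms of the dual sum (`T_O2`)
-/

set_option autoImplicit false

open Complex MeasureTheory Set Filter Topology

namespace Pool.Agent.H42.PZ

open Pool.Agent.H23.GLH (PrimChar)
open Pool.Agent.H28.MZ

/-- interchange of a dominated sum and an integral -/
lemma swap_sum {ι : Type*} [Countable ι] (μ : Measure ℝ) (F : ι → ℝ → ℂ) (z : ι → ℝ) (G : ℝ → ℝ)
    (hG : Integrable G μ) (hz : Summable z)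
    (hm : ∀ i, AEStronglyMeasurable (F i) μ) (hb : ∀ i, ∀ᵐ t ∂μ, ‖F i t‖ ≤ z i * G t) :
    Integrable (fun t => ∑' i, F i t) μ ∧ (Summable fun i => ∫ t, F i t ∂μ) ∧
      ∫ t, ∑' i, F i t ∂μ = ∑' i, ∫ t, F i t ∂μ := by
  have hall : ∀ᵐ t ∂μ, ∀ i, ‖F i t‖ ≤ z i * G t := ae_all_iff.mpr hb
  have hI : ∀ i, Integrable (F i) μ := fun i =>
    Integrable.mono' (hG.const_mul (z i)) (hm i) (hb i)
  have hsn : Summable (fun i => ∫ t, ‖F i t‖ ∂μ) := by
    refine Summable.of_nonneg_of_le (fun i => integral_nonneg (fun t => norm_nonneg _))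
      (fun i => ?_) (hz.mul_right (∫ t, G t ∂μ))
    rw [← integral_const_mul]
    exact integral_mono_ae (hI i).norm (hG.const_mul (z i)) (hb i)
  have hHS := hasSum_integral_of_summable_integral_norm hI hsn
  refine ⟨?_, hHS.summable, hHS.tsum_eq.symm⟩
  have hsumm : ∀ᵐ t ∂μ, Summable (fun i => F i t) := by
    filter_upwards [hall] with t ht
    exact Summable.of_norm_bounded (hz.mul_right (G t)) ht
  have hmeas : AEStronglyMeasurable (fun t => ∑' i, F i t) μ := by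
    refine aestronglyMeasurable_of_tendsto_ae (atTop : Filter (Finset ι))
      (f := fun s t => ∑ i ∈ s, F i t) (fun s => ?_) ?_
    · exact Finset.aestronglyMeasurable_fun_sum s (fun i _ => hm i)
    · filter_upwards [hsumm] with t ht
      exact ht.hasSum
  refine Integrable.mono' (hG.const_mul (∑' i, z i)) hmeas ?_
  filter_upwards [hall] with t ht
  have h1 : Summable (fun i => ‖F i t‖) :=
    Summable.of_nonneg_of_le (fun _ => norm_nonneg _) ht (hz.mul_right (G t))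
  refine (norm_tsum_le_tsum_norm h1).trans ?_
  rw [← tsum_mul_right]
  exact h1.tsum_le_tsum ht (hz.mul_right (G t))

/-- the weight `(m n)^{-2}` -/
noncomputable def zy (p : ℕ × ℕ) : ℝ := ((p.1 : ℝ) * p.2) ^ (-2 : ℝ)

lemma summable_zy : Summable zy := by
  have h1 : Summable (fun n : ℕ => ((n : ℝ)) ^ (-2 : ℝ)) :=
    Real.summable_nat_rpow.mpr (by norm_num)
  have h2 := h1.mul_of_nonneg h1 (fun n => Real.rpow_nonneg (Nat.cast_nonneg n) _)
    (fun n => Real.rpow_nonneg (Nat.cast_nonneg n) _)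
  apply h2.congr
  intro p
  unfold zy
  rw [Real.mul_rpow (Nat.cast_nonneg _) (Nat.cast_nonneg _)]

lemma zy_nonneg (p : ℕ × ℕ) : 0 ≤ zy p := by unfold zy; positivity

lemma W_nonneg {N : ℕ} (hN : 1 ≤ N) {u t : ℝ} (hu : 0 < u) (ht : 0 < t) : 0 ≤ W N u t := by
  unfold W
  have : (1 : ℝ) ≤ N := by exact_mod_cast hN
  have : 0 < Real.Gamma N := Real.Gamma_pos_of_pos (by linarith)
  positivity

lemma continuous_W (N : ℕ) (u : ℝ) : Continuous (W N u) := by
  unfold W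
  fun_prop

/-- the Mellin bound of one off-diagonal term -/
lemma mellin_term (hVV : T_VV) (hWF : T_WF) (N : ℕ) (hN : 2 ≤ N) (c : ℝ) (hc : 1 ≤ c) :
    ∃ K : ℝ, 0 < K ∧ ∀ u y s a : ℝ, 0 < u → -1 ≤ s → s ≤ 0 → 0 < a →
      ‖∫ t in Ioi (0 : ℝ), ((W N u t * t ^ s * V (a / t ^ 2) : ℝ) : ℂ) * ei (t * y)‖ ≤
        K * a ^ (-c) * u ^ (1 + s + 2 * c) * (1 + u * |y|) ^ (-(N : ℝ)) := by
  obtain ⟨_, _, _, _, hV5⟩ := hVV
  obtain ⟨_, hW2, hW3⟩ := hWF
  obtain ⟨CW, hCW, hW⟩ := hW3 N (2 * c) hN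
  have hc0 : 0 < c := by linarith
  set M : ℝ := ∫ v : ℝ, Real.exp (Real.pi ^ 2 / 2) * Real.exp (-(1 / 2) * v ^ 2) with hM
  have hMint : Integrable (fun v : ℝ => Real.exp (Real.pi ^ 2 / 2) * Real.exp (-(1 / 2) * v ^ 2)) :=
    (integrable_exp_neg_mul_sq (by norm_num : (0 : ℝ) < 1 / 2)).const_mul _
  have hM0 : 0 ≤ M := integral_nonneg (fun v => by positivity)
  refine ⟨1 / (2 * Real.pi) * (CW * (Real.exp (c ^ 2) / c) * (M + 1)), by positivity, ?_⟩
  intro u y s a hu hs1 hs2 ha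
  -- the Mellin weight
  set E : ℝ → ℂ := fun v => cexp (-(c + v * I) * Real.log a) * cexp ((c + v * I) ^ 2) /
    (c + v * I) with hE
  have hEint : Integrable E := (hV5 c a hc0 ha).1
  have hEnorm : ∀ v, ‖E v‖ ≤ a ^ (-c) * (Real.exp (c ^ 2) / c) * Real.exp (-v ^ 2) := by
    intro v
    rw [hE]
    simp only
    rw [norm_div, norm_mul, Complex.norm_exp, Complex.norm_exp]
    have e1 : (-(c + v * I) * Real.log a : ℂ).re = -c * Real.log a := by simp
    have e2 : ((c + v * I) ^ 2 : ℂ).re = c ^ 2 - v ^ 2 := by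
      simp [pow_two]
    have e3 : c ≤ ‖(c + v * I : ℂ)‖ := by
      have := Complex.re_le_norm (c + v * I : ℂ)
      simpa using this
    rw [e1, e2]
    have e4 : Real.exp (-c * Real.log a) = a ^ (-c) := by
      rw [Real.rpow_def_of_pos ha, mul_comm]
    rw [e4, show c ^ 2 - v ^ 2 = c ^ 2 + -v ^ 2 by ring, Real.exp_add]
    calc a ^ (-c) * (Real.exp (c ^ 2) * Real.exp (-v ^ 2)) / ‖(c + v * I : ℂ)‖
        ≤ a ^ (-c) * (Real.exp (c ^ 2) * Real.exp (-v ^ 2)) / c := by gcongr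
      _ = _ := by ring
  -- the inner integrand
  set w : ℝ → ℂ := fun v => ((s : ℂ) + 2 * (c + v * I)) with hw
  have hwre : ∀ v, (w v).re = s + 2 * c := by intro v; simp [hw]
  have hwim : ∀ v, (w v).im = 2 * v := by intro v; simp [hw]
  set f : ℝ → ℝ → ℂ := fun t v => ((W N u t : ℝ) : ℂ) * (t : ℂ) ^ (w v) * ei (t * y) * E v with hf
  have hpt : ∀ t : ℝ, 0 < t → ((W N u t * t ^ s * V (a / t ^ 2) : ℝ) : ℂ) * ei (t * y) =
      (1 / (2 * Real.pi) : ℝ) * ∫ v : ℝ, f t v := by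
    intro t ht
    have h1 := (hV5 c (a / t ^ 2) hc0 (by positivity)).2
    push_cast
    rw [h1]
    have h2 : ∀ v : ℝ, f t v = (((W N u t : ℝ) : ℂ) * ((t ^ s : ℝ) : ℂ) * ei (t * y)) *
        (cexp (-(c + v * I) * Real.log (a / t ^ 2)) * cexp ((c + v * I) ^ 2) / (c + v * I)) := by
      intro v
      rw [hf, hE, hw]
      simp only
      have ht0 : (t : ℂ) ≠ 0 := by exact_mod_cast ht.ne'
      rw [Complex.cpow_add _ _ ht0, ← Complex.ofReal_cpow ht.le]
      have e1 : (t : ℂ) ^ (2 * (c + v * I)) = cexp (2 * (c + v * I) * Real.log t) := by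
        rw [Complex.cpow_def_of_ne_zero ht0, ← Complex.ofReal_log ht.le, mul_comm]
      have e2 : Real.log (a / t ^ 2) = Real.log a - 2 * Real.log t := by
        rw [Real.log_div ha.ne' (by positivity), Real.log_pow]
        norm_num
      have e3 : cexp (-(c + v * I) * Real.log (a / t ^ 2)) =
          cexp (-(c + v * I) * Real.log a) * cexp (2 * (c + v * I) * Real.log t) := by
        rw [← Complex.exp_add, e2]
        congr 1
        push_cast
        ring
      rw [e1, e3]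
      ring
    simp_rw [h2]
    rw [integral_const_mul]
    push_cast
    ring
  rw [setIntegral_congr_fun measurableSet_Ioi hpt, integral_const_mul, norm_mul]
  -- Fubini
  have hfint : Integrable (Function.uncurry f) ((volume.restrict (Ioi (0 : ℝ))).prod volume) := by
    have hg1 : Integrable (fun t : ℝ => W N u t * t ^ (s + 2 * c)) (volume.restrict (Ioi 0)) := by
      have h1 := (hW2 N u 0 ((s + 2 * c : ℝ) : ℂ) (by omega) hu (by
        rw [Complex.ofReal_re]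
        have : (0 : ℝ) ≤ N := by positivity
        linarith)).1.norm
      refine IntegrableOn.congr_fun h1 ?_ measurableSet_Ioi
      intro t ht
      have ht0 : (0 : ℝ) < t := ht
      simp only
      rw [mul_zero, ei_zero, mul_one, norm_mul, Complex.norm_real, Real.norm_eq_abs,
        abs_of_nonneg (W_nonneg (by omega) hu ht0), Complex.norm_cpow_eq_rpow_re_of_pos ht0,
        Complex.ofReal_re]
    have hprod := hg1.mul_prod hEint.norm
    refine Integrable.mono' hprod ?_ ?_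
    · apply Measurable.aestronglyMeasurable
      rw [hf, hE, hw]
      unfold Function.uncurry ei
      have := (continuous_W N u).measurable
      simp only
      fun_prop
    · have hpos : ∀ᵐ t ∂(volume.restrict (Ioi (0 : ℝ))), 0 < t :=
        ae_restrict_mem measurableSet_Ioi
      have hpos2 : ∀ᵐ p ∂((volume.restrict (Ioi (0 : ℝ))).prod (volume : Measure ℝ)), 0 < p.1 :=
        Measure.quasiMeasurePreserving_fst.ae hpos
      filter_upwards [hpos2] with p hp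
      rw [hf]
      unfold Function.uncurry
      simp only
      rw [norm_mul, norm_mul, norm_mul, norm_ei, mul_one, Complex.norm_real, Real.norm_eq_abs,
        abs_of_nonneg (W_nonneg (by omega) hu hp), Complex.norm_cpow_eq_rpow_re_of_pos hp, hwre]
  rw [integral_integral_swap hfint]
  have hinner : ∀ v : ℝ, ‖∫ t in Ioi (0 : ℝ), f t v‖ ≤
      (CW * (Real.exp (c ^ 2) / c) * (a ^ (-c) * u ^ (1 + s + 2 * c) * (1 + u * |y|) ^ (-(N : ℝ)))) *
        (Real.exp (Real.pi ^ 2 / 2) * Real.exp (-(1 / 2) * v ^ 2)) := by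
    intro v
    have e1 : ∫ t in Ioi (0 : ℝ), f t v =
        (∫ t in Ioi (0 : ℝ), ((W N u t : ℝ) : ℂ) * (t : ℂ) ^ (w v) * ei (t * y)) * E v := by
      rw [← integral_mul_const]
    rw [e1, norm_mul]
    have e2 := hW u y (w v) hu (by rw [hwre]; linarith) (by rw [hwre]; linarith)
    rw [hwre, hwim] at e2
    have e3 := hEnorm v
    have e4 : Real.exp (Real.pi / 2 * |2 * v|) * Real.exp (-v ^ 2) ≤
        Real.exp (Real.pi ^ 2 / 2) * Real.exp (-(1 / 2) * v ^ 2) := by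
      rw [← Real.exp_add, ← Real.exp_add]
      apply Real.exp_le_exp.mpr
      rw [abs_mul, abs_two]
      nlinarith [sq_nonneg (|v| - Real.pi), sq_abs v]
    have e5 : 0 ≤ (1 + u * |y|) ^ (-(N : ℝ)) := by positivity
    calc ‖∫ t in Ioi (0 : ℝ), ((W N u t : ℝ) : ℂ) * (t : ℂ) ^ (w v) * ei (t * y)‖ * ‖E v‖
        ≤ (CW * u ^ (1 + (s + 2 * c)) * Real.exp (Real.pi / 2 * |2 * v|) *
            (1 + u * |y|) ^ (-(N : ℝ))) *
          (a ^ (-c) * (Real.exp (c ^ 2) / c) * Real.exp (-v ^ 2)) := by gcongr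
      _ = (CW * (Real.exp (c ^ 2) / c) * (a ^ (-c) * u ^ (1 + s + 2 * c) *
            (1 + u * |y|) ^ (-(N : ℝ)))) *
          (Real.exp (Real.pi / 2 * |2 * v|) * Real.exp (-v ^ 2)) := by
          rw [← add_assoc]
          ring
      _ ≤ _ := by gcongr
  have hb : ‖∫ v : ℝ, ∫ t in Ioi (0 : ℝ), f t v‖ ≤
      (CW * (Real.exp (c ^ 2) / c) * (a ^ (-c) * u ^ (1 + s + 2 * c) *
        (1 + u * |y|) ^ (-(N : ℝ)))) * M := by
    rw [hM, ← integral_const_mul]
    exact norm_integral_le_of_norm_le (hMint.const_mul _) (Filter.Eventually.of_forall hinner)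
  have hn : ‖((1 / (2 * Real.pi) : ℝ) : ℂ)‖ = 1 / (2 * Real.pi) := by
    rw [Complex.norm_real, Real.norm_eq_abs, abs_of_nonneg (by positivity)]
  rw [hn]
  have e5 : 0 ≤ (1 + u * |y|) ^ (-(N : ℝ)) := by positivity
  calc 1 / (2 * Real.pi) * ‖∫ v : ℝ, ∫ t in Ioi (0 : ℝ), f t v‖
      ≤ 1 / (2 * Real.pi) * ((CW * (Real.exp (c ^ 2) / c) * (a ^ (-c) * u ^ (1 + s + 2 * c) *
        (1 + u * |y|) ^ (-(N : ℝ)))) * (M + 1)) := by
        gcongr
        refine hb.trans ?_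
        gcongr
        linarith
    _ = _ := by ring

/-- the size of one coefficient of the dual sum -/
lemma aa_dual_norm (hV01 : ∀ x : ℝ, 0 < x → 0 ≤ V x ∧ V x ≤ 1) (C₂ : ℝ)
    (hV : ∀ x : ℝ, 0 < x → V x ≤ C₂ * x ^ (-2 : ℝ)) (π : PrimChar) (s ξ₀ t : ℝ) (hs : 0 ≤ s)
    (hC : 0 < C₂) (hξ : 0 < ξ₀) (ht : 0 < t) (p : ℕ × ℕ) :
    ‖aa π s (ξ₀ / t ^ 2) p‖ ≤ C₂ * ξ₀ ^ (-2 : ℝ) * zy p * t ^ 4 := by
  by_cases hp : 1 ≤ p.1 ∧ 1 ≤ p.2
  · have hp1 := zz_pos hp.1 hp.2
    have hp0 : 0 < (p.1 : ℝ) * p.2 := by linarith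
    have hx0 : 0 < (p.1 : ℝ) * p.2 * (ξ₀ / t ^ 2) := by positivity
    refine (aa_norm π s (ξ₀ / t ^ 2) p (hV01 _ hx0).1).trans ?_
    have e1 := hV _ hx0
    have e2 : ((p.1 : ℝ) * p.2 * (ξ₀ / t ^ 2)) ^ (-2 : ℝ) = zy p * (ξ₀ ^ (-2 : ℝ) * t ^ 4) := by
      unfold zy
      rw [Real.mul_rpow hp0.le (by positivity), Real.div_rpow hξ.le (by positivity),
        Real.rpow_neg (by positivity : 0 ≤ t ^ 2)]
      have : (t ^ 2) ^ (2 : ℝ) = t ^ 4 := by
        rw [show (2 : ℝ) = ((2 : ℕ) : ℝ) by norm_num, Real.rpow_natCast]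
        ring
      rw [this]
      field_simp
    have e3 : ((p.1 : ℝ) * p.2) ^ (-s) ≤ 1 := Real.rpow_le_one_of_one_le_of_nonpos hp1 (by linarith)
    have hz := zy_nonneg p
    calc ((p.1 : ℝ) * p.2) ^ (-s) * V ((p.1 : ℝ) * p.2 * (ξ₀ / t ^ 2))
        ≤ 1 * (C₂ * ((p.1 : ℝ) * p.2 * (ξ₀ / t ^ 2)) ^ (-2 : ℝ)) := by
          gcongr
          exact (hV01 _ hx0).1
      _ = C₂ * ξ₀ ^ (-2 : ℝ) * zy p * t ^ 4 := by rw [e2]; ring
  · rw [aa_zero π s _ hp, norm_zero]
    have := zy_nonneg p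
    positivity

/-- measurability of one coefficient of the dual sum -/
lemma aa_dual_meas (hVc : ContinuousOn V (Ioi 0)) (π : PrimChar) (s ξ₀ : ℝ) (hξ : 0 < ξ₀)
    (p : ℕ × ℕ) :
    AEStronglyMeasurable (fun t : ℝ => aa π s (ξ₀ / t ^ 2) p) (volume.restrict (Ioi 0)) := by
  by_cases hp : 1 ≤ p.1 ∧ 1 ≤ p.2
  · have hp0 : 0 < (p.1 : ℝ) * p.2 := by linarith [zz_pos hp.1 hp.2]
    apply ContinuousOn.aestronglyMeasurable _ measurableSet_Ioi
    unfold aa
    have h1 : ContinuousOn (fun t : ℝ => (p.1 : ℝ) * p.2 * (ξ₀ / t ^ 2)) (Ioi 0) := by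
      intro t ht
      have ht0 : (0 : ℝ) < t := ht
      apply ContinuousAt.continuousWithinAt
      have : t ^ 2 ≠ 0 := by positivity
      fun_prop (disch := assumption)
    have h2 : ContinuousOn (fun t : ℝ => V ((p.1 : ℝ) * p.2 * (ξ₀ / t ^ 2))) (Ioi 0) := by
      refine hVc.comp h1 ?_
      intro t ht
      have ht0 : (0 : ℝ) < t := ht
      show (0 : ℝ) < _
      positivity
    refine continuousOn_const.mul ?_
    exact Complex.continuous_ofReal.comp_continuousOn (continuousOn_const.mul h2)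
  · have : (fun t : ℝ => aa π s (ξ₀ / t ^ 2) p) = fun _ => 0 := by
      funext t
      exact aa_zero π s _ hp
    rw [this]
    exact aestronglyMeasurable_const

lemma small_power (x s : ℝ) (hx : 0 < x) (hs1 : -1 ≤ s) (hs2 : s ≤ 0) : x ^ s ≤ 1 + 1 / x := by
  rcases le_total 1 x with h | h
  · have h1 : x ^ s ≤ 1 := Real.rpow_le_one_of_one_le_of_nonpos h hs2
    have h2 : 0 < 1 / x := by positivity
    linarith
  · have h1 : x ^ s ≤ x ^ (-1 : ℝ) := Real.rpow_le_rpow_of_exponent_ge hx h hs1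
    rw [Real.rpow_neg_one] at h1
    rw [one_div]
    linarith

theorem o2 (hVV : T_VV) (hLG : T_LG) (hWF : T_WF) : T_O2 := by
  classical
  intro N π hN
  have hVV' := hVV
  have hWF' := hWF
  obtain ⟨hV01, _, hVc, hVd, _⟩ := hVV'
  obtain ⟨hW1, hW2, _⟩ := hWF'
  have hNr : (4 : ℝ) ≤ N := by exact_mod_cast hN
  obtain ⟨C₂, hC₂, hV⟩ := hVd 2 (by norm_num)
  obtain ⟨K, hK, hM⟩ := mellin_term hVV hWF N (by omega) ((N : ℝ) / 2 + 2) (by linarith)
  have hq : (0 : ℝ) < π.q := by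
    have := π.q_ne
    exact_mod_cast Nat.pos_of_ne_zero (NeZero.ne π.q)
  have hpi := Real.pi_pos
  set Z : ℝ := ∑' p, zy p with hZ
  have hZ0 : 0 ≤ Z := tsum_nonneg zy_nonneg
  set KK : ℝ := (1 + 1 / ((π.q : ℝ) / (2 * Real.pi))) * K *
    (4 * Real.pi ^ 2 / (π.q : ℝ) ^ 2) ^ (-((N : ℝ) / 2 + 2)) * 2 ^ N with hKK
  have hKK0 : 0 < KK := by rw [hKK]; positivity
  refine ⟨KK * (Z + 1), by positivity, ?_⟩
  intro σ u h k hσ1 hσ2 hu hh hk
  have hu0 : 0 < u := by linarith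
  have hh' : (0 : ℝ) < h := by exact_mod_cast (by omega : 0 < h)
  have hk' : (0 : ℝ) < k := by exact_mod_cast (by omega : 0 < k)
  set κ : ℝ := Real.log k - Real.log h with hκ
  set ξ₀ : ℝ := 4 * Real.pi ^ 2 / (π.q : ℝ) ^ 2 * u with hξ₀
  have hξ : 0 < ξ₀ := by rw [hξ₀]; positivity
  have hξt : ∀ t : ℝ, 4 * Real.pi ^ 2 * u / (π.q * t) ^ 2 = ξ₀ / t ^ 2 := by
    intro t
    rw [hξ₀, mul_pow]
    field_simp
  simp_rw [hξt]
  set P : ℝ → ℝ := fun t => (π.q * t / (2 * Real.pi)) ^ (1 - 2 * σ) with hP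
  have hPt : ∀ t : ℝ, 0 < t → P t = ((π.q : ℝ) / (2 * Real.pi)) ^ (1 - 2 * σ) * t ^ (1 - 2 * σ) := by
    intro t ht
    rw [hP]
    simp only
    rw [← Real.mul_rpow (by positivity) ht.le]
    congr 1
    ring
  have hP0 : ∀ t : ℝ, 0 < t → 0 ≤ P t := by
    intro t ht
    rw [hPt t ht]
    positivity
  -- the dominating function
  set G : ℝ → ℝ := fun t => W N u t * P t * t ^ 4 with hG
  have hGint : Integrable G (volume.restrict (Ioi 0)) := by
    have h1 := ((hW2 N u 0 ((5 - 2 * σ : ℝ) : ℂ) (by omega) hu0 (by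
      rw [Complex.ofReal_re]
      linarith)).1.norm).const_mul (((π.q : ℝ) / (2 * Real.pi)) ^ (1 - 2 * σ))
    refine IntegrableOn.congr_fun h1 ?_ measurableSet_Ioi
    intro t ht
    have ht0 : (0 : ℝ) < t := ht
    simp only [hG]
    rw [mul_zero, ei_zero, mul_one, norm_mul, Complex.norm_real, Real.norm_eq_abs,
      abs_of_nonneg (W_nonneg (by omega) hu0 ht0), Complex.norm_cpow_eq_rpow_re_of_pos ht0,
      Complex.ofReal_re, hPt t ht0]
    have : t ^ (5 - 2 * σ) = t ^ (1 - 2 * σ) * t ^ 4 := by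
      rw [← Real.rpow_natCast t 4, ← Real.rpow_add ht0]
      congr 1
      push_cast
      ring
    rw [this]
    ring
  have hPm : Measurable P := by rw [hP]; fun_prop
  have hWm : Measurable (W N u) := (continuous_W N u).measurable
  have hWPm : AEStronglyMeasurable (fun t : ℝ => ((W N u t : ℝ) : ℂ) * ((P t : ℝ) : ℂ))
      (volume.restrict (Ioi 0)) := by
    apply Measurable.aestronglyMeasurable
    fun_prop
  have hpos : ∀ᵐ t ∂(volume.restrict (Ioi (0 : ℝ))), 0 < t := ae_restrict_mem measurableSet_Ioi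
  -- the three families
  set F1 : ℕ × ℕ → ℝ → ℂ := fun p t => ((W N u t : ℝ) : ℂ) * ((P t : ℝ) : ℂ) *
    (aa π (1 - σ) (ξ₀ / t ^ 2) p * ei (t * (Real.log p.2 - Real.log p.1))) with hF1
  set F2 : ℕ × ℕ → ℝ → ℂ := fun p t => ((W N u t : ℝ) : ℂ) * ((P t : ℝ) : ℂ) *
    (if p.1 * h = p.2 * k then aa π (1 - σ) (ξ₀ / t ^ 2) p else 0) with hF2
  set F3 : ℕ × ℕ → ℝ → ℂ := fun p t => ((W N u t : ℝ) : ℂ) * ((P t : ℝ) : ℂ) *
    (aa π (1 - σ) (ξ₀ / t ^ 2) p * ei (t * (Real.log p.2 - Real.log p.1))) * ei (t * κ) with hF3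
  have hwp : ∀ t, 0 < t → ‖((W N u t : ℝ) : ℂ) * ((P t : ℝ) : ℂ)‖ = W N u t * P t := by
    intro t ht
    rw [norm_mul, Complex.norm_real, Complex.norm_real, Real.norm_eq_abs, Real.norm_eq_abs,
      abs_of_nonneg (W_nonneg (by omega) hu0 ht), abs_of_nonneg (hP0 t ht)]
  have hbase : ∀ p t, 0 < t → W N u t * P t * ‖aa π (1 - σ) (ξ₀ / t ^ 2) p‖ ≤
      C₂ * ξ₀ ^ (-2 : ℝ) * zy p * G t := by
    intro p t ht
    have h1 := aa_dual_norm hV01 C₂ hV π (1 - σ) ξ₀ t (by linarith) hC₂ hξ ht p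
    have h2 := W_nonneg (N := N) (by omega) hu0 ht
    have h3 := hP0 t ht
    calc W N u t * P t * ‖aa π (1 - σ) (ξ₀ / t ^ 2) p‖
        ≤ W N u t * P t * (C₂ * ξ₀ ^ (-2 : ℝ) * zy p * t ^ 4) := by gcongr
      _ = _ := by rw [hG]; ring
  have hzs : Summable (fun p => C₂ * ξ₀ ^ (-2 : ℝ) * zy p) := summable_zy.mul_left _
  have hm1 : ∀ p, AEStronglyMeasurable (F1 p) (volume.restrict (Ioi 0)) := by
    intro p
    exact hWPm.mul ((aa_dual_meas hVc π (1 - σ) ξ₀ hξ p).mul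
      (continuous_ei_mul _).aestronglyMeasurable)
  have hm3 : ∀ p, AEStronglyMeasurable (F3 p) (volume.restrict (Ioi 0)) := by
    intro p
    exact (hm1 p).mul (continuous_ei_mul _).aestronglyMeasurable
  have hm2 : ∀ p, AEStronglyMeasurable (F2 p) (volume.restrict (Ioi 0)) := by
    intro p
    refine hWPm.mul ?_
    by_cases hc : p.1 * h = p.2 * k
    · simp only [hc, if_true]
      exact aa_dual_meas hVc π (1 - σ) ξ₀ hξ p
    · simp only [hc, if_false]
      exact aestronglyMeasurable_const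
  have hb1 : ∀ p, ∀ᵐ t ∂(volume.restrict (Ioi (0 : ℝ))), ‖F1 p t‖ ≤
      C₂ * ξ₀ ^ (-2 : ℝ) * zy p * G t := by
    intro p
    filter_upwards [hpos] with t ht
    simp only [hF1]
    rw [norm_mul, hwp t ht, norm_mul, norm_ei, mul_one]
    exact hbase p t ht
  have hb3 : ∀ p, ∀ᵐ t ∂(volume.restrict (Ioi (0 : ℝ))), ‖F3 p t‖ ≤
      C₂ * ξ₀ ^ (-2 : ℝ) * zy p * G t := by
    intro p
    filter_upwards [hpos] with t ht
    simp only [hF3]
    rw [norm_mul, norm_mul, hwp t ht, norm_mul, norm_ei, norm_ei, mul_one, mul_one]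
    exact hbase p t ht
  have hb2 : ∀ p, ∀ᵐ t ∂(volume.restrict (Ioi (0 : ℝ))), ‖F2 p t‖ ≤
      C₂ * ξ₀ ^ (-2 : ℝ) * zy p * G t := by
    intro p
    filter_upwards [hpos] with t ht
    simp only [hF2]
    rw [norm_mul, hwp t ht]
    refine le_trans ?_ (hbase p t ht)
    have h2 := W_nonneg (N := N) (by omega) hu0 ht
    have h3 := hP0 t ht
    gcongr
    split_ifs
    · exact le_rfl
    · rw [norm_zero]; exact norm_nonneg _
  obtain ⟨hI1, _, _⟩ := swap_sum _ F1 _ G hGint hzs hm1 hb1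
  obtain ⟨hI2, hS2, hE2⟩ := swap_sum _ F2 _ G hGint hzs hm2 hb2
  obtain ⟨hI3, hS3, hE3⟩ := swap_sum _ F3 _ G hGint hzs hm3 hb3
  have hT1 : (fun t => ∑' p, F1 p t) = fun t : ℝ => ((W N u t : ℝ) : ℂ) * ((P t : ℝ) : ℂ) *
      SS π (1 - σ) (ξ₀ / t ^ 2) t := by
    funext t
    simp only [hF1]
    rw [tsum_mul_left]
    rfl
  have hT2 : (fun t => ∑' p, F2 p t) = fun t : ℝ => ((W N u t : ℝ) : ℂ) * ((P t : ℝ) : ℂ) *
      DS π h k (1 - σ) (ξ₀ / t ^ 2) := by
    funext t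
    simp only [hF2]
    rw [tsum_mul_left]
    rfl
  have hT3 : (fun t => ∑' p, F3 p t) = fun t : ℝ => ((W N u t : ℝ) : ℂ) * ((P t : ℝ) : ℂ) *
      SS π (1 - σ) (ξ₀ / t ^ 2) t * ei (t * κ) := by
    funext t
    simp only [hF3]
    rw [tsum_mul_right, tsum_mul_left]
    rfl
  rw [hT1] at hI1
  rw [hT2] at hI2
  refine ⟨hI1, hI2, ?_⟩
  have e3 : ∫ t in Ioi (0 : ℝ), ((W N u t : ℝ) : ℂ) * ((P t : ℝ) : ℂ) *
      SS π (1 - σ) (ξ₀ / t ^ 2) t * ei (t * κ) = ∑' p, ∫ t in Ioi (0 : ℝ), F3 p t := by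
    rw [← hE3]
    congr 1
    exact hT3.symm
  have e2 : ∫ t in Ioi (0 : ℝ), ((W N u t : ℝ) : ℂ) * ((P t : ℝ) : ℂ) *
      DS π h k (1 - σ) (ξ₀ / t ^ 2) = ∑' p, ∫ t in Ioi (0 : ℝ), F2 p t := by
    rw [← hE2]
    congr 1
    exact hT2.symm
  have hgoal : ‖(∑' p, ∫ t in Ioi (0 : ℝ), F3 p t) - ∑' p, ∫ t in Ioi (0 : ℝ), F2 p t‖ ≤
      KK * (Z + 1) * u ^ (3 - (N : ℝ) / 2) * ((h : ℝ) * k) ^ ((N : ℝ) / 2) := by
    rw [← hS3.tsum_sub hS2]
    have hterm : ∀ p : ℕ × ℕ, ‖(∫ t in Ioi (0 : ℝ), F3 p t) - ∫ t in Ioi (0 : ℝ), F2 p t‖ ≤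
        KK * (u ^ (3 - (N : ℝ) / 2) * ((h : ℝ) * k) ^ ((N : ℝ) / 2)) * zy p := by
      intro p
      have hnn : 0 ≤ KK * (u ^ (3 - (N : ℝ) / 2) * ((h : ℝ) * k) ^ ((N : ℝ) / 2)) * zy p := by
        have := zy_nonneg p
        positivity
      by_cases hp : 1 ≤ p.1 ∧ 1 ≤ p.2
      · by_cases hc : p.1 * h = p.2 * k
        · have e1 : (Real.log p.2 - Real.log p.1) + κ = 0 := by
            rw [hκ, log_diff hp.1 hp.2 hh hk, hc, sub_self]
          have e4 : ∀ t, F3 p t = F2 p t := by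
            intro t
            simp only [hF3, hF2, hc, if_true]
            rw [mul_assoc _ _ (ei (t * κ)), mul_assoc _ _ (ei (t * κ)), ← ei_add, ← mul_add, e1,
              mul_zero, ei_zero, mul_one]
          simp_rw [e4]
          rw [sub_self, norm_zero]
          exact hnn
        · have e4 : ∀ t, F2 p t = 0 := by
            intro t
            simp only [hF2, hc, if_false, mul_zero]
          simp_rw [e4]
          rw [integral_zero, sub_zero]
          have hp1 := zz_pos hp.1 hp.2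
          have hp0 : 0 < (p.1 : ℝ) * p.2 := by linarith
          set y : ℝ := (Real.log p.2 - Real.log p.1) + κ with hy
          have e5 : ∫ t in Ioi (0 : ℝ), F3 p t =
              (co π p.1 * (starRingEnd ℂ) (co π p.2) * ((((p.1 : ℝ) * p.2) ^ (-(1 - σ)) *
                ((π.q : ℝ) / (2 * Real.pi)) ^ (1 - 2 * σ) : ℝ) : ℂ)) *
              ∫ t in Ioi (0 : ℝ), ((W N u t * t ^ (1 - 2 * σ) *
                V ((p.1 : ℝ) * p.2 * ξ₀ / t ^ 2) : ℝ) : ℂ) * ei (t * y) := by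
            rw [← integral_const_mul]
            refine setIntegral_congr_fun measurableSet_Ioi ?_
            intro t ht
            have ht0 : (0 : ℝ) < t := ht
            simp only [hF3]
            rw [hPt t ht0, hy, mul_add, ei_add]
            unfold aa
            rw [← mul_div_assoc]
            push_cast
            ring
          rw [e5, norm_mul, norm_mul, norm_mul, RCLike.norm_conj, Complex.norm_real,
            Real.norm_eq_abs, abs_of_nonneg (by positivity)]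
          have e6 := hM u y (1 - 2 * σ) ((p.1 : ℝ) * p.2 * ξ₀) hu0 (by linarith) (by linarith)
            (by positivity)
          have e7 := decay_bound hLG N hu0 hp.1 hp.2 hh hk hc
          rw [← hκ, ← hy] at e7
          have e8 := small_power ((π.q : ℝ) / (2 * Real.pi)) (1 - 2 * σ) (by positivity)
            (by linarith) (by linarith)
          have e9 : ‖co π p.1‖ * ‖co π p.2‖ ≤ 1 :=
            mul_le_one₀ (norm_co_le π p.1) (norm_nonneg _) (norm_co_le π p.2)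
          set c : ℝ := (N : ℝ) / 2 + 2 with hc'
          have e10 : ((p.1 : ℝ) * p.2 * ξ₀) ^ (-c) = ((p.1 : ℝ) * p.2) ^ (-c) *
              ((4 * Real.pi ^ 2 / (π.q : ℝ) ^ 2) ^ (-c) * u ^ (-c)) := by
            rw [Real.mul_rpow hp0.le hξ.le, hξ₀, Real.mul_rpow (by positivity) hu0.le]
          have e11 : ((p.1 : ℝ) * p.2) ^ (-(1 - σ)) * (((p.1 : ℝ) * p.2) ^ (-c) *
              ((p.1 : ℝ) * p.2) ^ ((N : ℝ) / 2)) ≤ zy p := by
            unfold zy
            rw [← Real.rpow_add hp0, ← Real.rpow_add hp0]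
            apply Real.rpow_le_rpow_of_exponent_le hp1
            rw [hc']
            linarith
          have e12 : u ^ (-c) * (u ^ (1 + (1 - 2 * σ) + 2 * c) * u ^ (-(N : ℝ))) ≤
              u ^ (3 - (N : ℝ) / 2) := by
            rw [← Real.rpow_add hu0, ← Real.rpow_add hu0]
            apply Real.rpow_le_rpow_of_exponent_le hu
            rw [hc']
            linarith
          have hqc : 0 ≤ (4 * Real.pi ^ 2 / (π.q : ℝ) ^ 2) ^ (-c) := by positivity
          calc ‖co π p.1‖ * ‖co π p.2‖ * (((p.1 : ℝ) * p.2) ^ (-(1 - σ)) *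
                ((π.q : ℝ) / (2 * Real.pi)) ^ (1 - 2 * σ)) *
                ‖∫ t in Ioi (0 : ℝ), ((W N u t * t ^ (1 - 2 * σ) *
                V ((p.1 : ℝ) * p.2 * ξ₀ / t ^ 2) : ℝ) : ℂ) * ei (t * y)‖
              ≤ 1 * (((p.1 : ℝ) * p.2) ^ (-(1 - σ)) * (1 + 1 / ((π.q : ℝ) / (2 * Real.pi)))) *
                (K * (((p.1 : ℝ) * p.2) ^ (-c) *
                  ((4 * Real.pi ^ 2 / (π.q : ℝ) ^ 2) ^ (-c) * u ^ (-c))) *
                  u ^ (1 + (1 - 2 * σ) + 2 * c) *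
                  (2 ^ N * u ^ (-(N : ℝ)) * (((p.1 : ℝ) * p.2) ^ ((N : ℝ) / 2) *
                    ((h : ℝ) * k) ^ ((N : ℝ) / 2)))) := by
                gcongr
                refine e6.trans ?_
                rw [e10]
                gcongr
            _ = KK * ((u ^ (-c) * (u ^ (1 + (1 - 2 * σ) + 2 * c) * u ^ (-(N : ℝ)))) *
                  ((h : ℝ) * k) ^ ((N : ℝ) / 2)) *
                (((p.1 : ℝ) * p.2) ^ (-(1 - σ)) * (((p.1 : ℝ) * p.2) ^ (-c) *
                  ((p.1 : ℝ) * p.2) ^ ((N : ℝ) / 2))) := by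
                rw [hKK]
                ring
            _ ≤ KK * (u ^ (3 - (N : ℝ) / 2) * ((h : ℝ) * k) ^ ((N : ℝ) / 2)) * zy p := by
                gcongr
      · have e4 : ∀ t, F2 p t = 0 := by
          intro t
          simp only [hF2]
          rw [aa_zero π _ _ hp]
          simp
        have e5 : ∀ t, F3 p t = 0 := by
          intro t
          simp only [hF3]
          rw [aa_zero π _ _ hp]
          simp
        simp_rw [e4, e5]
        rw [sub_self, norm_zero]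
        exact hnn
    have hsn : Summable (fun p : ℕ × ℕ =>
        ‖(∫ t in Ioi (0 : ℝ), F3 p t) - ∫ t in Ioi (0 : ℝ), F2 p t‖) :=
      Summable.of_nonneg_of_le (fun _ => norm_nonneg _) hterm (summable_zy.mul_left _)
    refine (norm_tsum_le_tsum_norm hsn).trans ?_
    refine (hsn.tsum_le_tsum hterm (summable_zy.mul_left _)).trans ?_
    rw [tsum_mul_left, ← hZ]
    calc KK * (u ^ (3 - (N : ℝ) / 2) * ((h : ℝ) * k) ^ ((N : ℝ) / 2)) * Z
        ≤ KK * (u ^ (3 - (N : ℝ) / 2) * ((h : ℝ) * k) ^ ((N : ℝ) / 2)) * (Z + 1) := by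
          gcongr
          linarith
      _ = _ := by ring
  rw [← e3, ← e2] at hgoal
  exact hgoal

end Pool.Agent.H42.PZ
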