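import Mathlib
import Pool.Agent.H28.MZ.Targets
import Pool.Agent.Ratios.GammaIntegral
import Pool.Agent.H42.PZ.O1

/-!
# Fourier transforms of the Gamma weight (`T_WF`)
-/

set_option autoImplicit false

open Complex MeasureTheory Set

namespace Pool.Agent.H42.PZ

open Pool.Agent.H23.GLH (PrimChar)
open Pool.Agent.H28.MZ
open Pool.Agent.Ratios

/-- the pointwise formula for the integrand -/
lemma wf_integrand (N : ℕ) (u y t : ℝ) (w : ℂ) (hu : 0 < u) (ht : 0 < t) :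
    ((W N u t : ℝ) : ℂ) * (t : ℂ) ^ w * ei (t * y) =
      (((N : ℝ) ^ N / Real.Gamma N * u ^ (-(N : ℝ)) : ℝ) : ℂ) *
        ((t : ℂ) ^ ((N + 1 + w) - 1) * cexp (-((((N / u : ℝ) : ℂ) - I * y) * t))) := by
  unfold W ei
  have ht0 : (t : ℂ) ≠ 0 := by exact_mod_cast ht.ne'
  have e1 : (t / u) ^ N = u ^ (-(N : ℝ)) * t ^ N := by
    rw [div_pow, Real.rpow_neg hu.le, Real.rpow_natCast]
    field_simp
  have e2 : (t : ℂ) ^ ((N + 1 + w) - 1) = (t : ℂ) ^ N * (t : ℂ) ^ w := by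
    rw [show ((N : ℂ) + 1 + w) - 1 = (N : ℂ) + w by ring, Complex.cpow_add _ _ ht0,
      Complex.cpow_natCast]
  have e3 : cexp (-((((N / u : ℝ) : ℂ) - I * y) * t)) =
      cexp ((-(N * t / u) : ℝ) : ℂ) * cexp (((t * y : ℝ) : ℂ) * I) := by
    rw [← Complex.exp_add]
    congr 1
    push_cast
    ring
  rw [e1, e2, e3]
  push_cast
  ring

lemma wf_two (N : ℕ) (u y : ℝ) (w : ℂ) (hN : 1 ≤ N) (hu : 0 < u)
    (hw : -(N : ℝ) - 1 < w.re) :
    IntegrableOn (fun t : ℝ => ((W N u t : ℝ) : ℂ) * (t : ℂ) ^ w * ei (t * y)) (Ioi 0) ∧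
    ∫ t in Ioi (0 : ℝ), ((W N u t : ℝ) : ℂ) * (t : ℂ) ^ w * ei (t * y) =
      (((N : ℝ) ^ N / Real.Gamma N * u ^ (-(N : ℝ)) : ℝ) : ℂ) * Complex.Gamma (N + 1 + w) *
        (((N / u : ℝ) : ℂ) - I * y) ^ (-(N + 1 + w)) := by
  have hNr : (1 : ℝ) ≤ N := by exact_mod_cast hN
  have hr : 0 < ((((N / u : ℝ) : ℂ) - I * y)).re := by
    simp
    positivity
  have hs : 0 < (N + 1 + w : ℂ).re := by
    simp
    linarith
  constructor
  · have h := (integrableOn_cpow_mul_exp (N + 1 + w) (((N / u : ℝ) : ℂ) - I * y) hs hr).const_mul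
      (((N : ℝ) ^ N / Real.Gamma N * u ^ (-(N : ℝ)) : ℝ) : ℂ)
    refine IntegrableOn.congr_fun h ?_ measurableSet_Ioi
    intro t ht
    exact (wf_integrand N u y t w hu ht).symm
  · rw [setIntegral_congr_fun measurableSet_Ioi
      (g := fun t : ℝ => (((N : ℝ) ^ N / Real.Gamma N * u ^ (-(N : ℝ)) : ℝ) : ℂ) *
        ((t : ℂ) ^ ((N + 1 + w) - 1) * cexp (-((((N / u : ℝ) : ℂ) - I * y) * t))))
      (fun t ht => wf_integrand N u y t w hu ht)]
    rw [MeasureTheory.integral_const_mul, integral_cpow_mul_exp_neg_mul_complex _ _ hs hr,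
      one_div]
    have harg : (((N / u : ℝ) : ℂ) - I * y).arg ≠ Real.pi := by
      have h1 : |(((N / u : ℝ) : ℂ) - I * y).arg| < Real.pi / 2 :=
        Complex.abs_arg_lt_pi_div_two_iff.mpr (Or.inl hr)
      have h2 := abs_lt.mp h1
      have := Real.pi_pos
      intro h3
      rw [h3] at h2
      linarith
    rw [Complex.inv_cpow _ _ harg, Complex.cpow_neg]
    ring

lemma wf_one (N : ℕ) (u : ℝ) (hN : 1 ≤ N) (hu : 0 < u) :
    IntegrableOn (W N u) (Ioi 0) ∧ ∫ t in Ioi (0 : ℝ), W N u t = u := by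
  have hNr : (1 : ℝ) ≤ N := by exact_mod_cast hN
  obtain ⟨h1, h2⟩ := wf_two N u 0 0 hN hu (by simp; linarith)
  have e : ∀ t : ℝ, ((W N u t : ℝ) : ℂ) * (t : ℂ) ^ (0 : ℂ) * ei (t * 0) = ((W N u t : ℝ) : ℂ) := by
    intro t
    rw [mul_zero, ei_zero]
    simp
  simp_rw [e] at h1 h2
  have h3 : IntegrableOn (W N u) (Ioi 0) := by
    have := h1.re
    exact this
  refine ⟨h3, ?_⟩
  have h4 : ((∫ t in Ioi (0 : ℝ), W N u t : ℝ) : ℂ) = (u : ℂ) := by
    rw [← integral_complex_ofReal, h2]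
    simp only [add_zero, ofReal_zero, mul_zero, sub_zero]
    have e5 : (((N : ℝ) ^ N / Real.Gamma N * u ^ (-(N : ℝ)) : ℝ) : ℂ) * Complex.Gamma (N + 1) *
        ((N / u : ℝ) : ℂ) ^ (-(N + 1) : ℂ) =
        (((N : ℝ) ^ N / Real.Gamma N * u ^ (-(N : ℝ)) * Real.Gamma (N + 1) *
          (N / u : ℝ) ^ (-(N + 1) : ℝ) : ℝ) : ℂ) := by
      have e6 : Complex.Gamma (N + 1) = ((Real.Gamma (N + 1) : ℝ) : ℂ) := by
        rw [← Complex.Gamma_ofReal]
        push_cast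
        rfl
      have e7 : ((N / u : ℝ) : ℂ) ^ (-(N + 1) : ℂ) = (((N / u : ℝ) ^ (-(N + 1) : ℝ) : ℝ) : ℂ) := by
        rw [Complex.ofReal_cpow (by positivity)]
        push_cast
        rfl
      rw [e6, e7]
      push_cast
      ring
    rw [e5]
    congr 1
    have hg : Real.Gamma (N + 1) = N * Real.Gamma N := Real.Gamma_add_one (by positivity)
    have hgp : 0 < Real.Gamma N := Real.Gamma_pos_of_pos (by positivity)
    rw [hg, Real.rpow_neg hu.le, Real.rpow_natCast, Real.rpow_neg (by positivity),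
      show ((N : ℝ) + 1) = ((N + 1 : ℕ) : ℝ) by push_cast; ring, Real.rpow_natCast, div_pow,
      pow_succ, pow_succ]
    field_simp
  exact_mod_cast h4

/-- the Gamma function is bounded on vertical strips -/
lemma norm_Gamma_le (s : ℂ) (hs : 0 < s.re) : ‖Complex.Gamma s‖ ≤ Real.Gamma s.re := by
  rw [Complex.Gamma_eq_integral hs, Real.Gamma_eq_integral hs]
  unfold Complex.GammaIntegral
  refine (norm_integral_le_integral_norm _).trans (le_of_eq ?_)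
  refine setIntegral_congr_fun measurableSet_Ioi ?_
  intro x hx
  have hx0 : (0 : ℝ) < x := hx
  simp only
  rw [norm_mul, norm_cpow_eq_rpow_re_of_pos hx0]
  congr 1
  rw [Complex.norm_real, Real.norm_eq_abs, abs_of_pos (Real.exp_pos _)]

lemma wf_three (N : ℕ) (B : ℝ) (hN : 2 ≤ N) : ∃ C : ℝ, 0 < C ∧ ∀ (u y : ℝ) (w : ℂ), 0 < u →
    -1 ≤ w.re → w.re ≤ B →
    ‖∫ t in Ioi (0 : ℝ), ((W N u t : ℝ) : ℂ) * (t : ℂ) ^ w * ei (t * y)‖ ≤
      C * u ^ (1 + w.re) * Real.exp (Real.pi / 2 * |w.im|) * (1 + u * |y|) ^ (-(N : ℝ)) := by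
  have hNr : (2 : ℝ) ≤ N := by exact_mod_cast hN
  have hgN : 0 < Real.Gamma N := Real.Gamma_pos_of_pos (by positivity)
  -- the bound for Gamma
  have hG : ∃ G : ℝ, 0 < G ∧ ∀ x : ℝ, (N : ℝ) ≤ x → x ≤ N + 1 + B → Real.Gamma x ≤ G := by
    have hc : ContinuousOn Real.Gamma (Icc (N : ℝ) (N + 1 + B)) := by
      intro x hx
      refine ContinuousAt.continuousWithinAt ?_
      refine (Real.differentiableAt_Gamma ?_).continuousAt
      intro m hm
      have h1 : (N : ℝ) ≤ x := hx.1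
      have h2 : (0 : ℝ) ≤ m := by positivity
      linarith
    obtain ⟨G, hG⟩ := (isCompact_Icc.image_of_continuousOn hc).bddAbove
    refine ⟨max G 1, by positivity, ?_⟩
    intro x h1 h2
    exact (hG ⟨x, ⟨h1, h2⟩, rfl⟩).trans (le_max_left _ _)
  obtain ⟨G, hG0, hG⟩ := hG
  refine ⟨(N : ℝ) ^ N / Real.Gamma N * G * (2 : ℝ) ^ (N : ℝ), by positivity, ?_⟩
  intro u y w hu hw1 hw2
  obtain ⟨h1, h2⟩ := wf_two N u y w (by omega) hu (by linarith)
  rw [h2, norm_mul, norm_mul]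
  set r : ℂ := ((N / u : ℝ) : ℂ) - I * y with hr
  have hre : r.re = N / u := by simp [hr]
  have him : r.im = -y := by simp [hr]
  have hr0 : 0 < r.re := by rw [hre]; positivity
  have hrne : r ≠ 0 := by
    intro h
    rw [h] at hr0
    simp at hr0
  have e1 : ‖(((N : ℝ) ^ N / Real.Gamma N * u ^ (-(N : ℝ)) : ℝ) : ℂ)‖ =
      (N : ℝ) ^ N / Real.Gamma N * u ^ (-(N : ℝ)) := by
    rw [Complex.norm_real, Real.norm_eq_abs, abs_of_nonneg (by positivity)]
  have e2 : ‖Complex.Gamma (N + 1 + w)‖ ≤ G := by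
    have h3 : (N + 1 + w : ℂ).re = N + 1 + w.re := by simp
    refine (norm_Gamma_le _ (by rw [h3]; linarith)).trans ?_
    rw [h3]
    exact hG _ (by linarith) (by linarith)
  have e3 : ‖r ^ (-(N + 1 + w))‖ ≤ ((1 + u * |y|) / (2 * u)) ^ (-(N : ℝ)) * u ^ (1 + w.re) *
      Real.exp (Real.pi / 2 * |w.im|) := by
    rw [Complex.norm_cpow_of_ne_zero hrne]
    have h4 : (-(N + 1 + w) : ℂ).re = -(N : ℝ) + (-(1 + w.re)) := by simp; ring
    have h5 : (-(N + 1 + w) : ℂ).im = -w.im := by simp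
    rw [h4, h5]
    have hn1 : N / u ≤ ‖r‖ := by rw [← hre]; exact Complex.re_le_norm r
    have hn2 : |y| ≤ ‖r‖ := by
      have := Complex.abs_im_le_norm r
      rw [him, abs_neg] at this
      exact this
    have hrp : 0 < ‖r‖ := norm_pos_iff.mpr hrne
    have hn3 : (1 + u * |y|) / (2 * u) ≤ ‖r‖ := by
      have h6 : 1 / u ≤ ‖r‖ := by
        refine le_trans ?_ hn1
        gcongr
        linarith
      have h7 : (1 + u * |y|) / (2 * u) = (1 / u + |y|) / 2 := by field_simp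
      rw [h7]
      linarith
    have hn4 : 1 / u ≤ ‖r‖ := by
      refine le_trans ?_ hn1
      gcongr
      linarith
    rw [Real.rpow_add hrp]
    have h8 : ‖r‖ ^ (-(N : ℝ)) ≤ ((1 + u * |y|) / (2 * u)) ^ (-(N : ℝ)) :=
      Real.rpow_le_rpow_of_nonpos (by positivity) hn3 (by linarith)
    have h9 : ‖r‖ ^ (-(1 + w.re)) ≤ u ^ (1 + w.re) := by
      have h10 : ‖r‖ ^ (-(1 + w.re)) ≤ (1 / u) ^ (-(1 + w.re)) :=
        Real.rpow_le_rpow_of_nonpos (by positivity) hn4 (by linarith)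
      refine h10.trans (le_of_eq ?_)
      rw [one_div, Real.inv_rpow hu.le, Real.rpow_neg hu.le, inv_inv]
    have h11 : 1 / Real.exp (r.arg * -w.im) ≤ Real.exp (Real.pi / 2 * |w.im|) := by
      rw [one_div, ← Real.exp_neg]
      apply Real.exp_le_exp.mpr
      have h12 : |r.arg| ≤ Real.pi / 2 := Complex.abs_arg_le_pi_div_two_iff.mpr hr0.le
      calc -(r.arg * -w.im) = r.arg * w.im := by ring
        _ ≤ |r.arg * w.im| := le_abs_self _
        _ = |r.arg| * |w.im| := abs_mul _ _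
        _ ≤ Real.pi / 2 * |w.im| := by gcongr
    calc ‖r‖ ^ (-(N : ℝ)) * ‖r‖ ^ (-(1 + w.re)) / Real.exp (r.arg * -w.im)
        = ‖r‖ ^ (-(N : ℝ)) * ‖r‖ ^ (-(1 + w.re)) * (1 / Real.exp (r.arg * -w.im)) := by ring
      _ ≤ ((1 + u * |y|) / (2 * u)) ^ (-(N : ℝ)) * u ^ (1 + w.re) *
          Real.exp (Real.pi / 2 * |w.im|) := by gcongr
  have e4 : ((1 + u * |y|) / (2 * u)) ^ (-(N : ℝ)) =
      (1 + u * |y|) ^ (-(N : ℝ)) * (2 : ℝ) ^ (N : ℝ) * u ^ (N : ℝ) := by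
    have hy : 0 < 1 + u * |y| := by positivity
    rw [Real.div_rpow hy.le (by positivity), Real.mul_rpow (by norm_num) hu.le,
      Real.rpow_neg (by norm_num : (0 : ℝ) ≤ 2), Real.rpow_neg hu.le]
    have : 0 < u ^ (N : ℝ) := Real.rpow_pos_of_pos hu _
    have : 0 < (2 : ℝ) ^ (N : ℝ) := Real.rpow_pos_of_pos (by norm_num) _
    field_simp
  have e5 : u ^ (-(N : ℝ)) * u ^ (N : ℝ) = 1 := by
    rw [← Real.rpow_add hu]
    simp
  rw [e1]
  calc (N : ℝ) ^ N / Real.Gamma N * u ^ (-(N : ℝ)) * ‖Complex.Gamma (N + 1 + w)‖ *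
        ‖r ^ (-(N + 1 + w))‖
      ≤ (N : ℝ) ^ N / Real.Gamma N * u ^ (-(N : ℝ)) * G *
        (((1 + u * |y|) / (2 * u)) ^ (-(N : ℝ)) * u ^ (1 + w.re) *
          Real.exp (Real.pi / 2 * |w.im|)) := by gcongr
    _ = (N : ℝ) ^ N / Real.Gamma N * G * (2 : ℝ) ^ (N : ℝ) * u ^ (1 + w.re) *
        Real.exp (Real.pi / 2 * |w.im|) * (1 + u * |y|) ^ (-(N : ℝ)) *
          (u ^ (-(N : ℝ)) * u ^ (N : ℝ)) := by rw [e4]; ring
    _ = _ := by rw [e5, mul_one]

theorem wf : T_WF :=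
  ⟨fun N u hN hu => wf_one N u hN hu, fun N u y w hN hu hw => wf_two N u y w hN hu hw,
    fun N B hN => wf_three N B hN⟩

end Pool.Agent.H42.PZ
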