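import Mathlib
import Pool.Agent.H28.MZ.Targets
import Pool.Agent.H42.PZ.WF
import Pool.Agent.H42.PZ.O2

/-!
# The twisted second moment (`T_TW`)
-/

set_option autoImplicit false

open Complex MeasureTheory Set Filter Topology

namespace Pool.Agent.H42.PZ

open Pool.Agent.H23.GLH (PrimChar)
open Pool.Agent.H28.MZ

lemma real_weight (hWF : T_WF) (N : ℕ) (hN : 2 ≤ N) (B : ℝ) :
    ∃ C : ℝ, 0 < C ∧ ∀ u w : ℝ, 0 < u → 1 - (N : ℝ) ≤ w → w ≤ B →
      IntegrableOn (fun t : ℝ => W N u t * t ^ w) (Ioi 0) ∧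
      0 ≤ ∫ t in Ioi (0 : ℝ), W N u t * t ^ w ∧
      ∫ t in Ioi (0 : ℝ), W N u t * t ^ w ≤ C * u ^ (1 + w) := by
  have hNr : (2 : ℝ) ≤ N := by exact_mod_cast hN
  have hgN : 0 < Real.Gamma N := Real.Gamma_pos_of_pos (by positivity)
  have hG : ∃ G : ℝ, 0 < G ∧ ∀ x : ℝ, 2 ≤ x → x ≤ N + 1 + B → Real.Gamma x ≤ G := by
    have hc : ContinuousOn Real.Gamma (Icc 2 (N + 1 + B)) := by
      intro x hx
      refine ContinuousAt.continuousWithinAt ?_
      refine (Real.differentiableAt_Gamma ?_).continuousAt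
      intro m hm
      have h1 : (2 : ℝ) ≤ x := hx.1
      have h2 : (0 : ℝ) ≤ m := by positivity
      linarith
    obtain ⟨G, hG⟩ := (isCompact_Icc.image_of_continuousOn hc).bddAbove
    refine ⟨max G 1, by positivity, ?_⟩
    intro x h1 h2
    exact (hG ⟨x, ⟨h1, h2⟩, rfl⟩).trans (le_max_left _ _)
  obtain ⟨G, hG0, hG⟩ := hG
  obtain ⟨_, hW2, _⟩ := hWF
  refine ⟨(N : ℝ) ^ N / Real.Gamma N * G, by positivity, ?_⟩
  intro u w hu hw1 hw2
  obtain ⟨h1, h2⟩ := hW2 N u 0 ((w : ℝ) : ℂ) (by omega) hu (by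
    rw [Complex.ofReal_re]
    linarith)
  have hpt : ∀ t : ℝ, t ∈ Ioi (0 : ℝ) → ((W N u t : ℝ) : ℂ) * (t : ℂ) ^ ((w : ℝ) : ℂ) * ei (t * 0) =
      ((W N u t * t ^ w : ℝ) : ℂ) := by
    intro t ht
    have ht0 : (0 : ℝ) < t := ht
    rw [mul_zero, ei_zero, mul_one, ← Complex.ofReal_cpow ht0.le]
    push_cast
    rfl
  have hi : IntegrableOn (fun t : ℝ => ((W N u t * t ^ w : ℝ) : ℂ)) (Ioi 0) :=
    h1.congr_fun hpt measurableSet_Ioi
  have hi' : IntegrableOn (fun t : ℝ => W N u t * t ^ w) (Ioi 0) := hi.re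
  refine ⟨hi', ?_, ?_⟩
  · refine setIntegral_nonneg measurableSet_Ioi ?_
    intro t ht
    have ht0 : (0 : ℝ) < t := ht
    have := W_nonneg (N := N) (by omega) hu ht0
    positivity
  rw [setIntegral_congr_fun measurableSet_Ioi hpt, integral_complex_ofReal] at h2
  have h3 := congrArg norm h2
  rw [Complex.norm_real, Real.norm_eq_abs] at h3
  refine (le_abs_self _).trans ?_
  rw [h3, norm_mul, norm_mul]
  have e1 : ‖(((N : ℝ) ^ N / Real.Gamma N * u ^ (-(N : ℝ)) : ℝ) : ℂ)‖ =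
      (N : ℝ) ^ N / Real.Gamma N * u ^ (-(N : ℝ)) := by
    rw [Complex.norm_real, Real.norm_eq_abs, abs_of_nonneg (by positivity)]
  have e2 : ‖Complex.Gamma (N + 1 + ((w : ℝ) : ℂ))‖ ≤ G := by
    have h3 : (N + 1 + ((w : ℝ) : ℂ) : ℂ).re = N + 1 + w := by simp
    refine (norm_Gamma_le _ (by rw [h3]; linarith)).trans ?_
    rw [h3]
    exact hG _ (by linarith) (by linarith)
  have e3 : ‖(((N / u : ℝ) : ℂ) - I * ((0 : ℝ) : ℂ)) ^ (-(N + 1 + ((w : ℝ) : ℂ)))‖ ≤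
      u ^ ((N : ℝ) + 1 + w) := by
    rw [Complex.ofReal_zero, mul_zero, sub_zero, Complex.norm_cpow_eq_rpow_re_of_pos (by positivity)]
    have h4 : (-(N + 1 + ((w : ℝ) : ℂ)) : ℂ).re = -((N : ℝ) + 1 + w) := by simp
    rw [h4]
    have h5 : 1 / u ≤ N / u := by
      gcongr
      linarith
    refine (Real.rpow_le_rpow_of_nonpos (by positivity) h5 (by linarith)).trans (le_of_eq ?_)
    rw [one_div, Real.inv_rpow hu.le, Real.rpow_neg hu.le, inv_inv]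
  rw [e1]
  have e4 : u ^ (-(N : ℝ)) * u ^ ((N : ℝ) + 1 + w) = u ^ (1 + w) := by
    rw [← Real.rpow_add hu]
    congr 1
    ring
  calc (N : ℝ) ^ N / Real.Gamma N * u ^ (-(N : ℝ)) * ‖Complex.Gamma (N + 1 + ((w : ℝ) : ℂ))‖ *
        ‖(((N / u : ℝ) : ℂ) - I * ((0 : ℝ) : ℂ)) ^ (-(N + 1 + ((w : ℝ) : ℂ)))‖
      ≤ (N : ℝ) ^ N / Real.Gamma N * u ^ (-(N : ℝ)) * G * u ^ ((N : ℝ) + 1 + w) := by gcongr
    _ = (N : ℝ) ^ N / Real.Gamma N * G * (u ^ (-(N : ℝ)) * u ^ ((N : ℝ) + 1 + w)) := by ring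
    _ = _ := by rw [e4]

lemma exp_weight (N : ℕ) (hN : 2 ≤ N) :
    ∃ C : ℝ, 0 < C ∧ ∀ u : ℝ, 0 < u →
      IntegrableOn (fun t : ℝ => W N u t * Real.exp (-(t ^ 2 / 16))) (Ioi 0) ∧
      ∫ t in Ioi (0 : ℝ), W N u t * Real.exp (-(t ^ 2 / 16)) ≤ C * u ^ (-(N : ℝ)) := by
  have hNr : (2 : ℝ) ≤ N := by exact_mod_cast hN
  have hgN : 0 < Real.Gamma N := Real.Gamma_pos_of_pos (by positivity)
  have hi : IntegrableOn (fun t : ℝ => t ^ (N : ℝ) * Real.exp (-(1 / 16) * t ^ 2)) (Ioi 0) :=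
    integrableOn_rpow_mul_exp_neg_mul_sq (by norm_num : (0 : ℝ) < 1 / 16) (by linarith)
  set J : ℝ := ∫ t in Ioi (0 : ℝ), t ^ (N : ℝ) * Real.exp (-(1 / 16) * t ^ 2) with hJ
  have hJ0 : 0 ≤ J := by
    refine setIntegral_nonneg measurableSet_Ioi ?_
    intro t ht
    have ht0 : (0 : ℝ) < t := ht
    positivity
  refine ⟨(N : ℝ) ^ N / Real.Gamma N * (J + 1), by positivity, ?_⟩
  intro u hu
  have hb : ∀ t ∈ Ioi (0 : ℝ), W N u t * Real.exp (-(t ^ 2 / 16)) ≤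
      (N : ℝ) ^ N / Real.Gamma N * u ^ (-(N : ℝ)) *
        (t ^ (N : ℝ) * Real.exp (-(1 / 16) * t ^ 2)) := by
    intro t ht
    have ht0 : (0 : ℝ) < t := ht
    unfold W
    have e1 : (t / u) ^ N = u ^ (-(N : ℝ)) * t ^ (N : ℝ) := by
      rw [div_pow, Real.rpow_neg hu.le, Real.rpow_natCast, Real.rpow_natCast]
      field_simp
    have e2 : Real.exp (-(N * t / u)) ≤ 1 := Real.exp_le_one_iff.mpr (by
      have : 0 ≤ N * t / u := by positivity
      linarith)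
    have e3 : Real.exp (-(t ^ 2 / 16)) = Real.exp (-(1 / 16) * t ^ 2) := by ring_nf
    rw [e1, e3]
    calc (N : ℝ) ^ N / Real.Gamma N * (u ^ (-(N : ℝ)) * t ^ (N : ℝ)) * Real.exp (-(N * t / u)) *
          Real.exp (-(1 / 16) * t ^ 2)
        ≤ (N : ℝ) ^ N / Real.Gamma N * (u ^ (-(N : ℝ)) * t ^ (N : ℝ)) * 1 *
          Real.exp (-(1 / 16) * t ^ 2) := by gcongr
      _ = _ := by ring
  have hnn : ∀ t ∈ Ioi (0 : ℝ), 0 ≤ W N u t * Real.exp (-(t ^ 2 / 16)) := by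
    intro t ht
    have := W_nonneg (N := N) (by omega) hu ht
    positivity
  have hi2 : IntegrableOn (fun t : ℝ => W N u t * Real.exp (-(t ^ 2 / 16))) (Ioi 0) := by
    refine Integrable.mono' (hi.const_mul ((N : ℝ) ^ N / Real.Gamma N * u ^ (-(N : ℝ)))) ?_ ?_
    · have := (continuous_W N u).measurable
      apply Measurable.aestronglyMeasurable
      fun_prop
    · filter_upwards [ae_restrict_mem measurableSet_Ioi] with t ht
      rw [Real.norm_eq_abs, abs_of_nonneg (hnn t ht)]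
      exact hb t ht
  refine ⟨hi2, ?_⟩
  calc ∫ t in Ioi (0 : ℝ), W N u t * Real.exp (-(t ^ 2 / 16))
      ≤ ∫ t in Ioi (0 : ℝ), (N : ℝ) ^ N / Real.Gamma N * u ^ (-(N : ℝ)) *
        (t ^ (N : ℝ) * Real.exp (-(1 / 16) * t ^ 2)) :=
        setIntegral_mono_on hi2 (hi.const_mul _) measurableSet_Ioi hb
    _ = (N : ℝ) ^ N / Real.Gamma N * u ^ (-(N : ℝ)) * J := by rw [integral_const_mul]
    _ ≤ (N : ℝ) ^ N / Real.Gamma N * u ^ (-(N : ℝ)) * (J + 1) := by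
        gcongr
        linarith
    _ = _ := by ring

lemma PP_ge_one {h k : ℕ} (hh : 1 ≤ h) (hk : 1 ≤ k) : 1 ≤ PP h k := by
  unfold PP
  have hg : 0 < Nat.gcd h k := Nat.gcd_pos_of_pos_left _ hh
  have h1 : Nat.gcd h k ≤ h := Nat.gcd_le_left _ hh
  have h2 : Nat.gcd h k ≤ k := Nat.gcd_le_right _ hk
  have hg' : (0 : ℝ) < Nat.gcd h k := by exact_mod_cast hg
  have h1' : (Nat.gcd h k : ℝ) ≤ h := by exact_mod_cast h1
  have h2' : (Nat.gcd h k : ℝ) ≤ k := by exact_mod_cast h2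
  rw [le_div_iff₀ (by positivity), one_mul, pow_two]
  gcongr

lemma PP_le {h k : ℕ} (hh : 1 ≤ h) (hk : 1 ≤ k) : PP h k ≤ (h : ℝ) * k := by
  unfold PP
  have hg : 1 ≤ Nat.gcd h k := Nat.gcd_pos_of_pos_left _ hh
  have hg' : (1 : ℝ) ≤ Nat.gcd h k := by exact_mod_cast hg
  rw [div_le_iff₀ (by positivity)]
  have : (1 : ℝ) ≤ (Nat.gcd h k : ℝ) ^ 2 := one_le_pow₀ hg'
  have h0 : 0 ≤ (h : ℝ) * k := by positivity
  nlinarith

lemma continuous_L_line (π : PrimChar) (σ : ℝ) (hσ : σ < 1) :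
    Continuous (fun t : ℝ => π.L (σ + t * I)) := by
  have := π.q_ne
  unfold PrimChar.L
  rw [continuous_iff_continuousAt]
  intro t
  have h1 : (σ + t * I : ℂ) ≠ 1 := by
    intro h
    have := congrArg Complex.re h
    simp at this
    linarith
  have h2 : ContinuousAt (DirichletCharacter.LFunction π.χ) (σ + t * I) :=
    (DirichletCharacter.differentiableAt_LFunction π.χ _ (Or.inl h1)).continuousAt
  exact ContinuousAt.comp (f := fun t : ℝ => (σ + t * I : ℂ)) h2 (by fun_prop)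

/-- the main terms of the diagonal sums -/
lemma diag_main (hWF : T_WF) (hSY : T_SY) (N q : ℕ) (A : ℝ) (hN : 4 ≤ N) (hq : 1 ≤ q)
    (hA : 1 ≤ A) (hAN : 2 * A + 2 ≤ N) :
    ∃ C : ℝ, 0 < C ∧ ∀ (σ u P : ℝ), 1 / 2 < σ → σ ≤ 3 / 5 → 1 ≤ u → 1 ≤ P →
      IntegrableOn (fun t : ℝ => W N u t * (q * t / (2 * Real.pi)) ^ (1 - 2 * σ) *
        (P ^ (-(1 - σ)) * Sy q (2 * (1 - σ)) (1 / (P * (4 * Real.pi ^ 2 * u / (q * t) ^ 2)))))
        (Ioi 0) →
      |u * (P ^ (-σ) * Sy q (2 * σ) (1 / (P * (1 / u)))) +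
        (∫ t in Ioi (0 : ℝ), W N u t * (q * t / (2 * Real.pi)) ^ (1 - 2 * σ) *
        (P ^ (-(1 - σ)) * Sy q (2 * (1 - σ)) (1 / (P * (4 * Real.pi ^ 2 * u / (q * t) ^ 2))))) -
        (u * zq q (2 * σ) * P ^ (-σ) +
          (∫ t in Ioi (0 : ℝ), W N u t * (q * t / (2 * Real.pi)) ^ (1 - 2 * σ)) *
            zq q (2 - 2 * σ) * P ^ (σ - 1))| ≤ C * (u * (P / u) ^ A) := by
  obtain ⟨CS, hCS, hS⟩ := hSY q A hq hA
  obtain ⟨CR, hCR, hR⟩ := real_weight hWF N (by omega) 0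
  obtain ⟨hW1, _, _⟩ := hWF
  have hNr : (4 : ℝ) ≤ N := by exact_mod_cast hN
  have hqr : (0 : ℝ) < q := by exact_mod_cast hq
  have hpi := Real.pi_pos
  set x : ℝ := (q : ℝ) / (2 * Real.pi) with hx
  have hx0 : 0 < x := by rw [hx]; positivity
  set KQ : ℝ := (1 + 1 / x) * x ^ (-(2 * A)) with hKQ
  have hKQ0 : 0 < KQ := by rw [hKQ]; positivity
  refine ⟨CS * (1 + KQ * CR), by positivity, ?_⟩
  intro σ u P hσ1 hσ2 hu hP hint
  have hu0 : 0 < u := by linarith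
  have hP0 : 0 < P := by linarith
  have hσn : 2 * σ - 1 ≠ 0 := by
    intro h
    linarith
  obtain ⟨hWint, hWu⟩ := hW1 N u (by omega) hu0
  set κ : ℝ := (Nat.totient q : ℝ) / q * (Real.exp ((σ - 1 / 2) ^ 2) / (2 * σ - 1)) with hκ
  set Pt : ℝ → ℝ := fun t => (q * t / (2 * Real.pi)) ^ (1 - 2 * σ) with hPtdef
  have hPt : ∀ t : ℝ, 0 < t → Pt t = x ^ (1 - 2 * σ) * t ^ (1 - 2 * σ) := by
    intro t ht
    rw [hPtdef]
    simp only
    rw [hx, ← Real.mul_rpow (by positivity) ht.le]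
    congr 1
    ring
  set Y2 : ℝ → ℝ := fun t => 1 / (P * (4 * Real.pi ^ 2 * u / (q * t) ^ 2)) with hY2def
  have hY2 : ∀ t : ℝ, 0 < t → Y2 t = (x * t) ^ 2 / (u * P) := by
    intro t ht
    rw [hY2def, hx]
    simp only
    field_simp
    ring
  -- integrability of `W Pt`
  have hWP : IntegrableOn (fun t : ℝ => W N u t * Pt t) (Ioi 0) := by
    have h1 := ((hR u (1 - 2 * σ) hu0 (by linarith) (by linarith)).1).const_mul (x ^ (1 - 2 * σ))
    refine IntegrableOn.congr_fun h1 ?_ measurableSet_Ioi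
    intro t ht
    simp only
    rw [hPt t ht]
    ring
  -- first sum
  have e1 := hS (2 * σ) (1 / (P * (1 / u))) (by linarith) (by linarith) (by
    intro h
    apply hσn
    linarith) (by positivity)
  have hY1 : 1 / (P * (1 / u)) = u / P := by field_simp
  rw [hY1] at e1 ⊢
  have e1' : (Nat.totient q : ℝ) / q * (u / P) ^ ((1 - 2 * σ) / 2) *
      Real.exp (((1 - 2 * σ) / 2) ^ 2) / (1 - 2 * σ) = -(κ * (u / P) ^ (1 / 2 - σ)) := by
    rw [hκ, show ((1 - 2 * σ) / 2) ^ 2 = (σ - 1 / 2) ^ 2 by ring,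
      show (1 - 2 * σ) / 2 = 1 / 2 - σ by ring, show 1 - 2 * σ = -(2 * σ - 1) by ring, div_neg]
    ring
  rw [e1'] at e1
  -- second sum
  have e2 : ∀ t : ℝ, 0 < t → |Sy q (2 * (1 - σ)) (Y2 t) - zq q (2 - 2 * σ) -
      κ * (Y2 t) ^ (σ - 1 / 2)| ≤ CS * (Y2 t) ^ (-A) := by
    intro t ht
    have h1 := hS (2 * (1 - σ)) (Y2 t) (by linarith) (by linarith) (by
      intro h
      apply hσn
      linarith) (by rw [hY2 t ht]; positivity)
    have h2 : (Nat.totient q : ℝ) / q * (Y2 t) ^ ((1 - 2 * (1 - σ)) / 2) *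
        Real.exp (((1 - 2 * (1 - σ)) / 2) ^ 2) / (1 - 2 * (1 - σ)) =
        κ * (Y2 t) ^ (σ - 1 / 2) := by
      rw [hκ, show ((1 - 2 * (1 - σ)) / 2) = σ - 1 / 2 by ring,
        show 1 - 2 * (1 - σ) = 2 * σ - 1 by ring]
      ring
    rw [h2, show 2 * (1 - σ) = 2 - 2 * σ by ring] at h1
    rw [show 2 * (1 - σ) = 2 - 2 * σ by ring]
    exact h1
  have e3 : ∀ t : ℝ, 0 < t → Pt t * (Y2 t) ^ (σ - 1 / 2) = (u * P) ^ (1 / 2 - σ) := by
    intro t ht
    have hxt : 0 < x * t := by positivity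
    rw [hPt t ht, ← Real.mul_rpow hx0.le ht.le, hY2 t ht, Real.div_rpow (by positivity)
      (by positivity), ← Real.rpow_natCast (x * t) 2, ← Real.rpow_mul hxt.le]
    have h1 : (u * P) ^ (1 / 2 - σ) = 1 / (u * P) ^ (σ - 1 / 2) := by
      rw [show (1 / 2 - σ : ℝ) = -(σ - 1 / 2) by ring, Real.rpow_neg (by positivity)]
      exact (one_div _).symm
    rw [h1, mul_div_assoc', ← Real.rpow_add hxt]
    have h2 : (1 - 2 * σ) + ((2 : ℕ) : ℝ) * (σ - 1 / 2) = 0 := by push_cast; ring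
    rw [h2, Real.rpow_zero]
  -- the remainder
  set D : ℝ → ℝ := fun t => W N u t * Pt t * (P ^ (-(1 - σ)) * Sy q (2 * (1 - σ)) (Y2 t)) -
    (zq q (2 - 2 * σ) * P ^ (-(1 - σ))) * (W N u t * Pt t) -
    (κ * P ^ (-(1 - σ)) * (u * P) ^ (1 / 2 - σ)) * W N u t with hD
  have hD1 : ∫ t in Ioi (0 : ℝ), D t =
      (∫ t in Ioi (0 : ℝ), W N u t * Pt t * (P ^ (-(1 - σ)) * Sy q (2 * (1 - σ)) (Y2 t))) -
      (zq q (2 - 2 * σ) * P ^ (-(1 - σ))) * (∫ t in Ioi (0 : ℝ), W N u t * Pt t) -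
      (κ * P ^ (-(1 - σ)) * (u * P) ^ (1 / 2 - σ)) * u := by
    have i0 : Integrable (fun t : ℝ => W N u t * Pt t * (P ^ (-(1 - σ)) *
        Sy q (2 * (1 - σ)) (Y2 t))) (volume.restrict (Ioi 0)) := hint
    have i1 : Integrable (fun t : ℝ => (zq q (2 - 2 * σ) * P ^ (-(1 - σ))) * (W N u t * Pt t))
        (volume.restrict (Ioi 0)) := hWP.const_mul _
    have i2 : Integrable (fun t : ℝ => (κ * P ^ (-(1 - σ)) * (u * P) ^ (1 / 2 - σ)) * W N u t)
        (volume.restrict (Ioi 0)) := hWint.const_mul _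
    have i3 : Integrable (fun t : ℝ => W N u t * Pt t * (P ^ (-(1 - σ)) *
        Sy q (2 * (1 - σ)) (Y2 t)) - (zq q (2 - 2 * σ) * P ^ (-(1 - σ))) * (W N u t * Pt t))
        (volume.restrict (Ioi 0)) := i0.sub i1
    rw [hD]
    simp only
    rw [integral_sub i3 i2, integral_sub i0 i1, integral_const_mul, integral_const_mul, hWu]
  obtain ⟨hRi, _, hRb⟩ := hR u (1 - 2 * σ - 2 * A) hu0 (by linarith) (by linarith)
  have hD2 : |∫ t in Ioi (0 : ℝ), D t| ≤ CS * KQ * (u * P) ^ A * (CR * u ^ (1 + (1 - 2 * σ - 2 * A))) := by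
    have h1 : ∀ t ∈ Ioi (0 : ℝ), ‖D t‖ ≤ (CS * KQ * (u * P) ^ A) *
        (W N u t * t ^ (1 - 2 * σ - 2 * A)) := by
      intro t ht
      have ht0 : (0 : ℝ) < t := ht
      have hw := W_nonneg (N := N) (by omega) hu0 ht0
      have hxt : 0 < x * t := by positivity
      have hPt0 : 0 ≤ Pt t := by rw [hPt t ht0]; positivity
      have h2 : D t = W N u t * Pt t * P ^ (-(1 - σ)) *
          (Sy q (2 * (1 - σ)) (Y2 t) - zq q (2 - 2 * σ) - κ * (Y2 t) ^ (σ - 1 / 2)) := by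
        rw [hD]
        simp only
        rw [← e3 t ht0]
        ring
      rw [h2, Real.norm_eq_abs, abs_mul, abs_of_nonneg (by positivity)]
      have h3 : P ^ (-(1 - σ)) ≤ 1 := Real.rpow_le_one_of_one_le_of_nonpos hP (by linarith)
      have h4 : Pt t * (Y2 t) ^ (-A) ≤ KQ * (u * P) ^ A * t ^ (1 - 2 * σ - 2 * A) := by
        have h20 : ((x * t) ^ 2 / (u * P)) ^ (-A) = x ^ (((2 : ℕ) : ℝ) * -A) *
            t ^ (((2 : ℕ) : ℝ) * -A) / (u * P) ^ (-A) := by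
          rw [Real.div_rpow (by positivity) (by positivity),
            ← Real.rpow_natCast (x * t) 2, ← Real.rpow_mul hxt.le, Real.mul_rpow hx0.le ht0.le]
        rw [hPt t ht0, hY2 t ht0, h20]
        have h5 := small_power x (1 - 2 * σ) hx0 (by linarith) (by linarith)
        have h6 : 1 / (u * P) ^ (-A) = (u * P) ^ A := by
          rw [Real.rpow_neg (by positivity), one_div, inv_inv]
        have h7 : t ^ (1 - 2 * σ - 2 * A) = t ^ (1 - 2 * σ) * t ^ (((2 : ℕ) : ℝ) * -A) := by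
          rw [← Real.rpow_add ht0]
          congr 1
          push_cast
          ring
        have h8 : x ^ (((2 : ℕ) : ℝ) * -A) = x ^ (-(2 * A)) := by
          congr 1
          push_cast
          ring
        calc x ^ (1 - 2 * σ) * t ^ (1 - 2 * σ) *
              (x ^ (((2 : ℕ) : ℝ) * -A) * t ^ (((2 : ℕ) : ℝ) * -A) / (u * P) ^ (-A))
            = x ^ (1 - 2 * σ) * x ^ (((2 : ℕ) : ℝ) * -A) * (1 / (u * P) ^ (-A)) *
              (t ^ (1 - 2 * σ) * t ^ (((2 : ℕ) : ℝ) * -A)) := by ring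
          _ = x ^ (1 - 2 * σ) * x ^ (-(2 * A)) * (u * P) ^ A * t ^ (1 - 2 * σ - 2 * A) := by
              rw [h6, ← h7, h8]
          _ ≤ (1 + 1 / x) * x ^ (-(2 * A)) * (u * P) ^ A * t ^ (1 - 2 * σ - 2 * A) := by gcongr
      calc W N u t * Pt t * P ^ (-(1 - σ)) *
            |Sy q (2 * (1 - σ)) (Y2 t) - zq q (2 - 2 * σ) - κ * (Y2 t) ^ (σ - 1 / 2)|
          ≤ W N u t * Pt t * 1 * (CS * (Y2 t) ^ (-A)) := by
            gcongr
            exact e2 t ht0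
        _ = CS * (W N u t * (Pt t * (Y2 t) ^ (-A))) := by ring
        _ ≤ CS * (W N u t * (KQ * (u * P) ^ A * t ^ (1 - 2 * σ - 2 * A))) := by gcongr
        _ = _ := by ring
    rw [← Real.norm_eq_abs]
    have h9 := norm_integral_le_of_norm_le (f := D) (hRi.const_mul (CS * KQ * (u * P) ^ A))
      ((ae_restrict_iff' measurableSet_Ioi).mpr (Filter.Eventually.of_forall h1))
    refine h9.trans ?_
    rw [integral_const_mul]
    gcongr
  -- the cancellation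
  have e4 : P ^ (-(1 - σ)) * (u * P) ^ (1 / 2 - σ) = P ^ (-σ) * (u / P) ^ (1 / 2 - σ) := by
    rw [Real.mul_rpow hu0.le hP0.le, Real.div_rpow hu0.le hP0.le, mul_left_comm,
      ← Real.rpow_add hP0, mul_div_assoc', mul_comm (P ^ (-σ)), mul_div_assoc,
      ← Real.rpow_sub hP0]
    congr 2
    ring
  have e5 : P ^ (σ - 1) = P ^ (-(1 - σ)) := by
    congr 1
    ring
  have e6 : u * (P ^ (-σ) * Sy q (2 * σ) (u / P)) +
        (∫ t in Ioi (0 : ℝ), W N u t * Pt t *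
        (P ^ (-(1 - σ)) * Sy q (2 * (1 - σ)) (Y2 t))) -
        (u * zq q (2 * σ) * P ^ (-σ) +
          (∫ t in Ioi (0 : ℝ), W N u t * Pt t) *
            zq q (2 - 2 * σ) * P ^ (σ - 1)) =
      u * P ^ (-σ) * (Sy q (2 * σ) (u / P) - zq q (2 * σ) - -(κ * (u / P) ^ (1 / 2 - σ))) +
        ∫ t in Ioi (0 : ℝ), D t := by
    rw [hD1, e5]
    linear_combination (κ * u) * e4
  rw [e6]
  have h10 : |u * P ^ (-σ) * (Sy q (2 * σ) (u / P) - zq q (2 * σ) -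
      -(κ * (u / P) ^ (1 / 2 - σ)))| ≤ CS * (u * (P / u) ^ A) := by
    rw [abs_mul, abs_of_nonneg (by positivity)]
    have h3 : P ^ (-σ) ≤ 1 := Real.rpow_le_one_of_one_le_of_nonpos hP (by linarith)
    have h4 : (u / P) ^ (-A) = (P / u) ^ A := by
      rw [Real.rpow_neg (by positivity), ← Real.inv_rpow (by positivity), inv_div]
    rw [h4] at e1
    calc u * P ^ (-σ) * |Sy q (2 * σ) (u / P) - zq q (2 * σ) - -(κ * (u / P) ^ (1 / 2 - σ))|
        ≤ u * 1 * (CS * (P / u) ^ A) := by gcongr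
      _ = _ := by ring
  have h11 : CS * KQ * (u * P) ^ A * (CR * u ^ (1 + (1 - 2 * σ - 2 * A))) ≤
      CS * KQ * CR * (u * (P / u) ^ A) := by
    have h12 : (u * P) ^ A * u ^ (1 + (1 - 2 * σ - 2 * A)) ≤ u * (P / u) ^ A := by
      rw [Real.mul_rpow hu0.le hP0.le, Real.div_rpow hP0.le hu0.le]
      have h13 : u * (P ^ A / u ^ A) = P ^ A * u ^ (1 - A) := by
        rw [Real.rpow_sub hu0, Real.rpow_one]
        ring
      rw [h13]
      calc u ^ A * P ^ A * u ^ (1 + (1 - 2 * σ - 2 * A))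
          = P ^ A * (u ^ A * u ^ (1 + (1 - 2 * σ - 2 * A))) := by ring
        _ = P ^ A * u ^ (A + (1 + (1 - 2 * σ - 2 * A))) := by rw [← Real.rpow_add hu0]
        _ ≤ P ^ A * u ^ (1 - A) :=
            mul_le_mul_of_nonneg_left (Real.rpow_le_rpow_of_exponent_le hu (by linarith))
              (by positivity)
    calc CS * KQ * (u * P) ^ A * (CR * u ^ (1 + (1 - 2 * σ - 2 * A)))
        = CS * KQ * CR * ((u * P) ^ A * u ^ (1 + (1 - 2 * σ - 2 * A))) := by ring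
      _ ≤ _ := by gcongr
  calc _ ≤ |u * P ^ (-σ) * (Sy q (2 * σ) (u / P) - zq q (2 * σ) -
      -(κ * (u / P) ^ (1 / 2 - σ)))| + |∫ t in Ioi (0 : ℝ), D t| := abs_add_le _ _
    _ ≤ CS * (u * (P / u) ^ A) + CS * KQ * CR * (u * (P / u) ^ A) :=
        add_le_add h10 (hD2.trans h11)
    _ = _ := by ring

theorem tw (hAF : T_AF) (hWF : T_WF) (hO1 : T_O1) (hO2 : T_O2) (hDD : T_DD) (hSY : T_SY) :
    T_TW := by
  intro N π A δ hN hA hAN hδ hδ1
  obtain ⟨CA, hCA, hAF'⟩ := hAF π δ hδ hδ1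
  obtain ⟨C1, hC1, hO1'⟩ := hO1 N π hN
  obtain ⟨C2, hC2, hO2'⟩ := hO2 N π hN
  have hq : 1 ≤ π.q := by
    have := π.q_ne
    exact Nat.pos_of_ne_zero (NeZero.ne π.q)
  obtain ⟨CD, hCD, hD⟩ := diag_main hWF hSY N π.q A hN hq hA hAN
  obtain ⟨CR, hCR, hR⟩ := real_weight hWF N (by omega) 1
  obtain ⟨CE, hCE, hE⟩ := exp_weight N (by omega)
  obtain ⟨hW1, _, _⟩ := hWF
  have hNr : (4 : ℝ) ≤ N := by exact_mod_cast hN
  refine ⟨CA * (CR + CE) + C1 + C2 + CD, by positivity, ?_⟩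
  intro σ u h k hσ1 hσ2 hu hh hk hhq hkq
  have hu0 : 0 < u := by linarith
  have hσ3 : σ ≤ 3 / 5 := by linarith
  have hh' : (0 : ℝ) < h := by exact_mod_cast (by omega : 0 < h)
  have hk' : (0 : ℝ) < k := by exact_mod_cast (by omega : 0 < k)
  obtain ⟨i1, b1⟩ := hO1' σ u h k (by linarith) hσ3 hu hh hk
  obtain ⟨i2, i3, b2⟩ := hO2' σ u h k (by linarith) hσ3 hu hh hk
  set κ : ℝ := Real.log k - Real.log h with hκ
  set cc : ℂ := co π h * (starRingEnd ℂ) (co π k) with hcc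
  have hccn : ‖cc‖ ≤ 1 := by
    rw [hcc, norm_mul, RCLike.norm_conj]
    exact mul_le_one₀ (norm_co_le π h) (norm_nonneg _) (norm_co_le π k)
  set S1 : ℝ → ℂ := fun t => SS π σ (1 / u) t with hS1
  set S2 : ℝ → ℂ := fun t => SS π (1 - σ) (4 * Real.pi ^ 2 * u / (π.q * t) ^ 2) t with hS2
  set D2 : ℝ → ℂ := fun t => DS π h k (1 - σ) (4 * Real.pi ^ 2 * u / (π.q * t) ^ 2) with hD2
  set P : ℝ → ℝ := fun t => (π.q * t / (2 * Real.pi)) ^ (1 - 2 * σ) with hP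
  set LL : ℝ → ℝ := fun t => ‖π.L (σ + t * I)‖ ^ 2 with hLL
  set R : ℝ → ℂ := fun t => ((LL t : ℝ) : ℂ) - S1 t - ((P t : ℝ) : ℂ) * S2 t with hRdef
  have hRb : ∀ t : ℝ, 0 < t → ‖R t‖ ≤
      CA * (t ^ (2 * δ) * u ^ (-(1 / 2) - δ) + u * Real.exp (-(t ^ 2 / 16))) := by
    intro t ht
    exact hAF' σ t u (by linarith) hσ2 ht hu
  have hpos : ∀ᵐ t ∂(volume.restrict (Ioi (0 : ℝ))), 0 < t := ae_restrict_mem measurableSet_Ioi
  have hWm : Measurable (W N u) := (continuous_W N u).measurable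
  have hLc : Continuous LL := by
    rw [hLL]
    exact (continuous_L_line π σ (by linarith)).norm.pow 2
  -- integrability of the remainder
  obtain ⟨r1, r2, r3⟩ := hR u (2 * δ) hu0 (by linarith) (by linarith)
  obtain ⟨x1, x2⟩ := hE u hu0
  set g : ℝ → ℝ := fun t => (CA * u ^ (-(1 / 2) - δ)) * (W N u t * t ^ (2 * δ)) +
    (CA * u) * (W N u t * Real.exp (-(t ^ 2 / 16))) with hg
  have hgi : Integrable g (volume.restrict (Ioi 0)) :=
    (Integrable.const_mul r1 _).add (Integrable.const_mul x1 _)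
  have i1' : Integrable (fun t : ℝ => ((W N u t : ℝ) : ℂ) * S1 t) (volume.restrict (Ioi 0)) := i1
  have i2' : Integrable (fun t : ℝ => ((W N u t : ℝ) : ℂ) * ((P t : ℝ) : ℂ) * S2 t)
      (volume.restrict (Ioi 0)) := i2
  have i3' : Integrable (fun t : ℝ => ((W N u t : ℝ) : ℂ) * ((P t : ℝ) : ℂ) * D2 t)
      (volume.restrict (Ioi 0)) := i3
  have hWRm : AEStronglyMeasurable (fun t : ℝ => ((W N u t : ℝ) : ℂ) * R t)
      (volume.restrict (Ioi 0)) := by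
    have e1 : (fun t : ℝ => ((W N u t : ℝ) : ℂ) * R t) = fun t =>
        ((W N u t : ℝ) : ℂ) * ((LL t : ℝ) : ℂ) - ((W N u t : ℝ) : ℂ) * S1 t -
          ((W N u t : ℝ) : ℂ) * ((P t : ℝ) : ℂ) * S2 t := by
      funext t
      rw [hRdef]
      ring
    rw [e1]
    refine AEStronglyMeasurable.sub (AEStronglyMeasurable.sub ?_ i1'.aestronglyMeasurable)
      i2'.aestronglyMeasurable
    exact ((Complex.continuous_ofReal.comp (continuous_W N u)).mul
      (Complex.continuous_ofReal.comp hLc)).aestronglyMeasurable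
  have hWRb : ∀ᵐ t ∂(volume.restrict (Ioi (0 : ℝ))), ‖((W N u t : ℝ) : ℂ) * R t‖ ≤ g t := by
    filter_upwards [hpos] with t ht
    have hw := W_nonneg (N := N) (by omega) hu0 ht
    rw [norm_mul, Complex.norm_real, Real.norm_eq_abs, abs_of_nonneg hw]
    calc W N u t * ‖R t‖ ≤ W N u t *
          (CA * (t ^ (2 * δ) * u ^ (-(1 / 2) - δ) + u * Real.exp (-(t ^ 2 / 16)))) := by
          gcongr
          exact hRb t ht
      _ = g t := by rw [hg]; ring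
  have hWR : Integrable (fun t : ℝ => ((W N u t : ℝ) : ℂ) * R t) (volume.restrict (Ioi 0)) :=
    Integrable.mono' hgi hWRm hWRb
  have hbdd : ∀ f : ℝ → ℂ, Integrable f (volume.restrict (Ioi 0)) →
      Integrable (fun t => f t * ei (t * κ)) (volume.restrict (Ioi 0)) := by
    intro f hf
    refine Integrable.mul_bdd (c := 1) hf (continuous_ei_mul κ).aestronglyMeasurable ?_
    filter_upwards with t
    rw [norm_ei]
  have hWR' := hbdd _ hWR
  have i1'' := hbdd _ i1'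
  have i2'' := hbdd _ i2'
  have hsplit : ∫ t in Ioi (0 : ℝ), ((W N u t * LL t : ℝ) : ℂ) * ei (t * κ) =
      (∫ t in Ioi (0 : ℝ), ((W N u t : ℝ) : ℂ) * R t * ei (t * κ)) +
      (∫ t in Ioi (0 : ℝ), ((W N u t : ℝ) : ℂ) * S1 t * ei (t * κ)) +
      ∫ t in Ioi (0 : ℝ), ((W N u t : ℝ) : ℂ) * ((P t : ℝ) : ℂ) * S2 t * ei (t * κ) := by
    have i4 : Integrable (fun t : ℝ => ((W N u t : ℝ) : ℂ) * R t * ei (t * κ) +
        ((W N u t : ℝ) : ℂ) * S1 t * ei (t * κ)) (volume.restrict (Ioi 0)) := hWR'.add i1''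
    rw [← integral_add hWR' i1'', ← integral_add i4 i2'']
    congr 1
    funext t
    rw [hRdef]
    push_cast
    ring
  -- the remainder is small
  have hrem : ‖∫ t in Ioi (0 : ℝ), ((W N u t : ℝ) : ℂ) * R t * ei (t * κ)‖ ≤
      CA * (CR + CE) * u ^ (1 / 2 + δ) := by
    have h1 := norm_integral_le_of_norm_le (f := fun t : ℝ => ((W N u t : ℝ) : ℂ) * R t *
      ei (t * κ)) hgi (by
        filter_upwards [hWRb] with t ht
        rw [norm_mul, norm_ei, mul_one]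
        exact ht)
    refine h1.trans ?_
    rw [hg, integral_add (Integrable.const_mul r1 _) (Integrable.const_mul x1 _),
      integral_const_mul, integral_const_mul]
    have h2 : u ^ (-(1 / 2) - δ) * u ^ (1 + 2 * δ) = u ^ (1 / 2 + δ) := by
      rw [← Real.rpow_add hu0]
      congr 1
      ring
    have h3 : u * u ^ (-(N : ℝ)) ≤ u ^ (1 / 2 + δ) := by
      nth_rewrite 1 [← Real.rpow_one u]
      rw [← Real.rpow_add hu0]
      exact Real.rpow_le_rpow_of_exponent_le hu (by linarith)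
    calc CA * u ^ (-(1 / 2) - δ) * (∫ t in Ioi (0 : ℝ), W N u t * t ^ (2 * δ)) +
          CA * u * ∫ t in Ioi (0 : ℝ), W N u t * Real.exp (-(t ^ 2 / 16))
        ≤ CA * u ^ (-(1 / 2) - δ) * (CR * u ^ (1 + 2 * δ)) +
          CA * u * (CE * u ^ (-(N : ℝ))) := by gcongr
      _ = CA * CR * (u ^ (-(1 / 2) - δ) * u ^ (1 + 2 * δ)) +
          CA * CE * (u * u ^ (-(N : ℝ))) := by ring
      _ ≤ CA * CR * u ^ (1 / 2 + δ) + CA * CE * u ^ (1 / 2 + δ) := by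
          rw [h2]
          gcongr
      _ = _ := by ring
  -- the diagonal terms
  have hPP := PP_ge_one hh hk
  have hPP0 : 0 < PP h k := by linarith
  have hpi := Real.pi_pos
  have hqr : (0 : ℝ) < π.q := by exact_mod_cast hq
  have d1 := hDD π h k σ (1 / u) hh hk hhq hkq (by positivity) (by linarith)
  rw [← hcc] at d1
  have d2 : ∀ t : ℝ, 0 < t → cc * D2 t =
      ((PP h k ^ (-(1 - σ)) * Sy π.q (2 * (1 - σ))
        (1 / (PP h k * (4 * Real.pi ^ 2 * u / (π.q * t) ^ 2))) : ℝ) : ℂ) := by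
    intro t ht
    exact hDD π h k (1 - σ) _ hh hk hhq hkq (by positivity) (by linarith)
  set Q : ℝ → ℝ := fun t => W N u t * P t * (PP h k ^ (-(1 - σ)) * Sy π.q (2 * (1 - σ))
        (1 / (PP h k * (4 * Real.pi ^ 2 * u / (π.q * t) ^ 2)))) with hQ
  have d3 : ∀ t ∈ Ioi (0 : ℝ), cc * (((W N u t : ℝ) : ℂ) * ((P t : ℝ) : ℂ) * D2 t) =
      ((Q t : ℝ) : ℂ) := by
    intro t ht
    have h1 := d2 t ht
    rw [hQ]
    simp only
    rw [Complex.ofReal_mul, ← h1]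
    push_cast
    ring
  have i5 : IntegrableOn (fun t : ℝ => ((Q t : ℝ) : ℂ)) (Ioi 0) :=
    IntegrableOn.congr_fun (i3'.const_mul cc) d3 measurableSet_Ioi
  have i6 : IntegrableOn Q (Ioi 0) := i5.re
  have d4 : cc * (∫ t in Ioi (0 : ℝ), ((W N u t : ℝ) : ℂ) * ((P t : ℝ) : ℂ) * D2 t) =
      ((∫ t in Ioi (0 : ℝ), Q t : ℝ) : ℂ) := by
    rw [← integral_const_mul, setIntegral_congr_fun measurableSet_Ioi d3, integral_complex_ofReal]
  have hX := hD σ u (PP h k) hσ1 hσ3 hu hPP i6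
  set X : ℝ := u * (PP h k ^ (-σ) * Sy π.q (2 * σ) (1 / (PP h k * (1 / u)))) +
    (∫ t in Ioi (0 : ℝ), Q t) - (u * zq π.q (2 * σ) * PP h k ^ (-σ) +
      (∫ t in Ioi (0 : ℝ), W N u t * (π.q * t / (2 * Real.pi)) ^ (1 - 2 * σ)) *
        zq π.q (2 - 2 * σ) * PP h k ^ (σ - 1)) with hXdef
  have hfin : cc * (∫ t in Ioi (0 : ℝ), ((W N u t * LL t : ℝ) : ℂ) * ei (t * κ)) -
      ((u * zq π.q (2 * σ) * PP h k ^ (-σ) +
      (∫ t in Ioi (0 : ℝ), W N u t * (π.q * t / (2 * Real.pi)) ^ (1 - 2 * σ)) *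
        zq π.q (2 - 2 * σ) * PP h k ^ (σ - 1) : ℝ) : ℂ) =
      cc * (∫ t in Ioi (0 : ℝ), ((W N u t : ℝ) : ℂ) * R t * ei (t * κ)) +
      cc * ((∫ t in Ioi (0 : ℝ), ((W N u t : ℝ) : ℂ) * S1 t * ei (t * κ)) -
        u * DS π h k σ (1 / u)) +
      cc * ((∫ t in Ioi (0 : ℝ), ((W N u t : ℝ) : ℂ) * ((P t : ℝ) : ℂ) * S2 t * ei (t * κ)) -
        ∫ t in Ioi (0 : ℝ), ((W N u t : ℝ) : ℂ) * ((P t : ℝ) : ℂ) * D2 t) + ((X : ℝ) : ℂ) := by
    have hXc : ((X : ℝ) : ℂ) = u * (cc * DS π h k σ (1 / u)) +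
        cc * (∫ t in Ioi (0 : ℝ), ((W N u t : ℝ) : ℂ) * ((P t : ℝ) : ℂ) * D2 t) -
        ((u * zq π.q (2 * σ) * PP h k ^ (-σ) +
      (∫ t in Ioi (0 : ℝ), W N u t * (π.q * t / (2 * Real.pi)) ^ (1 - 2 * σ)) *
        zq π.q (2 - 2 * σ) * PP h k ^ (σ - 1) : ℝ) : ℂ) := by
      rw [d4, d1, ← Complex.ofReal_mul, ← Complex.ofReal_add, ← Complex.ofReal_sub, hXdef]
    rw [hsplit, hXc]
    ring
  rw [hfin]
  have hmul : ∀ z : ℂ, ‖cc * z‖ ≤ ‖z‖ := by
    intro z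
    rw [norm_mul]
    calc ‖cc‖ * ‖z‖ ≤ 1 * ‖z‖ := by gcongr
      _ = ‖z‖ := one_mul _
  have hn4 : ‖((X : ℝ) : ℂ)‖ ≤ CD * (u * (PP h k / u) ^ A) := by
    rw [Complex.norm_real, Real.norm_eq_abs]
    exact hX
  have a1 : 0 ≤ u ^ (1 / 2 + δ) := by positivity
  have a2 : 0 ≤ u ^ (3 - (N : ℝ) / 2) * ((h : ℝ) * k) ^ ((N : ℝ) / 2) := by positivity
  have a3 : 0 ≤ u * (PP h k / u) ^ A := by positivity
  have t1 := (hmul _).trans hrem
  have t2 := (hmul _).trans b1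
  have t3 := (hmul _).trans b2
  refine (norm_add_le _ _).trans ?_
  refine (add_le_add ((norm_add_le _ _).trans (add_le_add ((norm_add_le _ _).trans
    (add_le_add t1 t2)) t3)) hn4).trans ?_
  have p1 : 0 ≤ CA * (CR + CE) := by positivity
  nlinarith [mul_nonneg p1 a2, mul_nonneg p1 a3, mul_nonneg hC1.le a1, mul_nonneg hC1.le a3,
    mul_nonneg hC2.le a1, mul_nonneg hC2.le a3, mul_nonneg hCD.le a1, mul_nonneg hCD.le a2]

end Pool.Agent.H42.PZ
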