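import Mathlib
import Pool.Agent.H28.MZ.Targets
import Pool.Agent.H42.PZ.TW

/-!
# The mollified second moment (`T_MM`)
-/

set_option autoImplicit false

open Complex MeasureTheory Set Filter Topology

namespace Pool.Agent.H42.PZ

open Pool.Agent.H23.GLH (PrimChar)
open Pool.Agent.H28.MZ

lemma conj_ei (x : ℝ) : (starRingEnd ℂ) (ei x) = ei (-x) := by
  unfold ei
  rw [← Complex.exp_conj]
  congr 1
  simp

lemma nat_cpow_line {h : ℕ} (hh : 1 ≤ h) (σ t : ℝ) :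
    (h : ℂ) ^ (-(σ + t * I)) = (((h : ℝ) ^ (-σ) : ℝ) : ℂ) * ei (-(t * Real.log h)) := by
  have h0 : (0 : ℝ) < h := by exact_mod_cast (by omega : 0 < h)
  have h1 : (h : ℂ) ≠ 0 := by exact_mod_cast h0.ne'
  rw [Complex.cpow_def_of_ne_zero h1, Real.rpow_def_of_pos h0, Complex.ofReal_exp]
  unfold ei
  rw [← Complex.exp_add]
  congr 1
  rw [← Complex.ofReal_natCast, ← Complex.ofReal_log h0.le]
  push_cast
  ring

lemma Bf_sq (π : PrimChar) (b : ℕ → ℝ) (Y : ℕ) (σ t : ℝ) :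
    ((‖Bf π b Y (σ + t * I)‖ ^ 2 : ℝ) : ℂ) = ∑ h ∈ Finset.Icc 1 Y, ∑ k ∈ Finset.Icc 1 Y,
      ((b h * b k * ((h : ℝ) * k) ^ (-σ) : ℝ) : ℂ) * (co π h * (starRingEnd ℂ) (co π k) *
        ei (t * (Real.log k - Real.log h))) := by
  have h1 : ((‖Bf π b Y (σ + t * I)‖ ^ 2 : ℝ) : ℂ) =
      Bf π b Y (σ + t * I) * (starRingEnd ℂ) (Bf π b Y (σ + t * I)) := by
    rw [Complex.mul_conj, Complex.normSq_eq_norm_sq]
  rw [h1]
  unfold Bf
  rw [map_sum, Finset.sum_mul_sum]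
  refine Finset.sum_congr rfl fun h hh => Finset.sum_congr rfl fun k hk => ?_
  have hh1 : 1 ≤ h := (Finset.mem_Icc.mp hh).1
  have hk1 : 1 ≤ k := (Finset.mem_Icc.mp hk).1
  have h0 : (0 : ℝ) < h := by exact_mod_cast (by omega : 0 < h)
  have k0 : (0 : ℝ) < k := by exact_mod_cast (by omega : 0 < k)
  rw [nat_cpow_line hh1, nat_cpow_line hk1, map_mul, map_mul, map_mul, Complex.conj_ofReal,
    Complex.conj_ofReal, conj_ei, neg_neg, Real.mul_rpow h0.le k0.le,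
    show t * (Real.log k - Real.log h) = -(t * Real.log h) + t * Real.log k by ring, ei_add]
  push_cast
  ring

lemma W_L_integrable (hAF : T_AF) (hWF : T_WF) (hO1 : T_O1) (hO2 : T_O2) (N : ℕ) (hN : 4 ≤ N)
    (π : PrimChar) (σ u : ℝ) (hσ1 : 1 / 2 ≤ σ) (hσ2 : σ ≤ 1 / 2 + 1 / 20) (hu : 1 ≤ u) :
    IntegrableOn (fun t : ℝ => W N u t * ‖π.L (σ + t * I)‖ ^ 2) (Ioi 0) := by
  obtain ⟨CA, hCA, hAF'⟩ := hAF π (1 / 10) (by norm_num) le_rfl
  obtain ⟨C1, hC1, hO1'⟩ := hO1 N π hN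
  obtain ⟨C2, hC2, hO2'⟩ := hO2 N π hN
  obtain ⟨CR, hCR, hR⟩ := real_weight hWF N (by omega) 1
  obtain ⟨CE, hCE, hE⟩ := exp_weight N (by omega)
  have hNr : (4 : ℝ) ≤ N := by exact_mod_cast hN
  have hu0 : 0 < u := by linarith
  obtain ⟨i1, _⟩ := hO1' σ u 1 1 hσ1 (by linarith) hu le_rfl le_rfl
  obtain ⟨i2, _, _⟩ := hO2' σ u 1 1 hσ1 (by linarith) hu le_rfl le_rfl
  obtain ⟨r1, _, _⟩ := hR u (2 * (1 / 10)) hu0 (by linarith) (by norm_num)
  obtain ⟨x1, _⟩ := hE u hu0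
  set S1 : ℝ → ℂ := fun t => SS π σ (1 / u) t with hS1
  set S2 : ℝ → ℂ := fun t => SS π (1 - σ) (4 * Real.pi ^ 2 * u / (π.q * t) ^ 2) t with hS2
  set P : ℝ → ℝ := fun t => (π.q * t / (2 * Real.pi)) ^ (1 - 2 * σ) with hP
  have i1' : Integrable (fun t : ℝ => ((W N u t : ℝ) : ℂ) * S1 t) (volume.restrict (Ioi 0)) := i1
  have i2' : Integrable (fun t : ℝ => ((W N u t : ℝ) : ℂ) * ((P t : ℝ) : ℂ) * S2 t)
      (volume.restrict (Ioi 0)) := i2
  have hLc : Continuous (fun t : ℝ => ‖π.L (σ + t * I)‖ ^ 2) :=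
    (continuous_L_line π σ (by linarith)).norm.pow 2
  set g : ℝ → ℝ := fun t => (CA * u ^ (-(1 / 2 : ℝ) - 1 / 10)) * (W N u t * t ^ (2 * (1 / 10 : ℝ))) +
    (CA * u) * (W N u t * Real.exp (-(t ^ 2 / 16))) with hg
  have hgi : Integrable g (volume.restrict (Ioi 0)) :=
    (Integrable.const_mul r1 _).add (Integrable.const_mul x1 _)
  refine Integrable.mono' ((hgi.add i1'.norm).add i2'.norm) ?_ ?_
  · exact ((continuous_W N u).mul hLc).aestronglyMeasurable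
  · filter_upwards [ae_restrict_mem measurableSet_Ioi] with t ht
    have ht0 : (0 : ℝ) < t := ht
    have hw := W_nonneg (N := N) (by omega) hu0 ht0
    rw [Real.norm_eq_abs, abs_of_nonneg (by positivity)]
    have h1 := hAF' σ t u hσ1 (by linarith) ht0 hu
    have h2 : ‖((‖π.L (σ + t * I)‖ ^ 2 : ℝ) : ℂ)‖ ≤
        CA * (t ^ (2 * (1 / 10 : ℝ)) * u ^ (-(1 / 2 : ℝ) - 1 / 10) + u * Real.exp (-(t ^ 2 / 16))) +
          ‖S1 t‖ + ‖((P t : ℝ) : ℂ) * S2 t‖ := by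
      have h3 : ((‖π.L (σ + t * I)‖ ^ 2 : ℝ) : ℂ) =
          (((‖π.L (σ + t * I)‖ ^ 2 : ℝ) : ℂ) - S1 t - ((P t : ℝ) : ℂ) * S2 t) + S1 t +
            ((P t : ℝ) : ℂ) * S2 t := by ring
      rw [h3]
      refine (norm_add_le _ _).trans (add_le_add ((norm_add_le _ _).trans ?_) le_rfl)
      exact add_le_add h1 le_rfl
    rw [Complex.norm_real, Real.norm_eq_abs, abs_of_nonneg (by positivity)] at h2
    calc W N u t * ‖π.L (σ + t * I)‖ ^ 2 ≤ W N u t *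
          (CA * (t ^ (2 * (1 / 10 : ℝ)) * u ^ (-(1 / 2 : ℝ) - 1 / 10) +
            u * Real.exp (-(t ^ 2 / 16))) + ‖S1 t‖ + ‖((P t : ℝ) : ℂ) * S2 t‖) := by gcongr
      _ = _ := by
          simp only [Pi.add_apply, norm_mul, Complex.norm_real, Real.norm_eq_abs,
            abs_of_nonneg hw, hg]
          ring

lemma sum_inv_sqrt (Y : ℕ) : ∑ h ∈ Finset.Icc 1 Y, (h : ℝ) ^ (-(1 / 2) : ℝ) ≤ 2 * Real.sqrt Y := by
  induction Y with
  | zero => simp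
  | succ n ih =>
    rw [Finset.sum_Icc_succ_top (by omega)]
    have h1 : ((n + 1 : ℕ) : ℝ) ^ (-(1 / 2) : ℝ) = 1 / Real.sqrt (n + 1 : ℕ) := by
      rw [Real.rpow_neg (by positivity), ← Real.sqrt_eq_rpow, one_div]
    rw [h1]
    have hn : (0 : ℝ) ≤ n := by positivity
    set a := Real.sqrt n with ha
    set c := Real.sqrt (n + 1 : ℕ) with hc
    have ha2 : a ^ 2 = n := Real.sq_sqrt hn
    have hc2 : c ^ 2 = n + 1 := by
      rw [hc, Real.sq_sqrt (by positivity)]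
      push_cast
      ring
    have ha0 : 0 ≤ a := Real.sqrt_nonneg _
    have hc0 : 0 < c := Real.sqrt_pos.mpr (by positivity)
    have h2 : 1 / c ≤ 2 * c - 2 * a := by
      rw [div_le_iff₀ hc0]
      nlinarith [sq_nonneg (c - a)]
    linarith

/-- the sum of the error terms -/
lemma sum_err (δ₁ δ' A : ℝ) (N : ℕ) (hδ₁ : 0 < δ₁) (hδ₁' : δ₁ < 1 / 2) (hδ' : δ' ≤ δ₁ / 2)
    (hA : 1 ≤ A) (hA' : 1 ≤ A * δ₁) (hN : 4 ≤ N * δ₁) (σ u : ℝ) (Y : ℕ) (hσ : 1 / 2 ≤ σ)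
    (hu : 1 ≤ u) (hY : (Y : ℝ) ≤ u ^ (1 / 2 - δ₁)) :
    ∑ h ∈ Finset.Icc 1 Y, ∑ k ∈ Finset.Icc 1 Y, ((h : ℝ) * k) ^ (-σ) *
      (u ^ (1 / 2 + δ') + u ^ (3 - (N : ℝ) / 2) * ((h : ℝ) * k) ^ ((N : ℝ) / 2) +
          u * (PP h k / u) ^ A) ≤ 6 * u ^ (1 - δ₁ / 2) := by
  have hu0 : 0 < u := by linarith
  set v : ℝ := u ^ (1 / 2 - δ₁) with hv
  have hv0 : 0 < v := by rw [hv]; positivity
  set c2 : ℝ := u ^ (3 - (N : ℝ) / 2) * v ^ (N : ℝ) + u * (v ^ 2 / u) ^ A with hc2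
  have hc20 : 0 ≤ c2 := by rw [hc2]; positivity
  have hterm : ∀ h ∈ Finset.Icc 1 Y, ∀ k ∈ Finset.Icc 1 Y, ((h : ℝ) * k) ^ (-σ) *
      (u ^ (1 / 2 + δ') + u ^ (3 - (N : ℝ) / 2) * ((h : ℝ) * k) ^ ((N : ℝ) / 2) +
          u * (PP h k / u) ^ A) ≤
      u ^ (1 / 2 + δ') * ((h : ℝ) ^ (-(1 / 2) : ℝ) * (k : ℝ) ^ (-(1 / 2) : ℝ)) + c2 := by
    intro h hh k hk
    have hh1 := Finset.mem_Icc.mp hh
    have hk1 := Finset.mem_Icc.mp hk
    have e1 : (1 : ℝ) ≤ h := by exact_mod_cast hh1.1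
    have e2 : (1 : ℝ) ≤ k := by exact_mod_cast hk1.1
    have e3 : (h : ℝ) ≤ v := le_trans (by exact_mod_cast hh1.2) hY
    have e4 : (k : ℝ) ≤ v := le_trans (by exact_mod_cast hk1.2) hY
    have e5 : 1 ≤ (h : ℝ) * k := by nlinarith
    have e5' : 0 < (h : ℝ) * k := by linarith
    have e6 : (h : ℝ) * k ≤ v ^ 2 := by
      rw [pow_two]
      gcongr
    have e7 : ((h : ℝ) * k) ^ (-σ) ≤ (h : ℝ) ^ (-(1 / 2) : ℝ) * (k : ℝ) ^ (-(1 / 2) : ℝ) := by
      rw [← Real.mul_rpow (by positivity) (by positivity)]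
      exact Real.rpow_le_rpow_of_exponent_le e5 (by linarith)
    have e8 : ((h : ℝ) * k) ^ (-σ) ≤ 1 := Real.rpow_le_one_of_one_le_of_nonpos e5 (by linarith)
    have e9 : ((h : ℝ) * k) ^ ((N : ℝ) / 2) ≤ v ^ (N : ℝ) := by
      have h1 : ((h : ℝ) * k) ^ ((N : ℝ) / 2) ≤ (v ^ 2) ^ ((N : ℝ) / 2) :=
        Real.rpow_le_rpow (by positivity) e6 (by positivity)
      refine h1.trans (le_of_eq ?_)
      rw [← Real.rpow_natCast v 2, ← Real.rpow_mul hv0.le]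
      congr 1
      push_cast
      ring
    have hPP0 : 0 < PP h k := by linarith [PP_ge_one hh1.1 hk1.1]
    have e10 : (PP h k / u) ^ A ≤ (v ^ 2 / u) ^ A := by
      apply Real.rpow_le_rpow (by positivity) _ (by linarith)
      have := (PP_le hh1.1 hk1.1).trans e6
      gcongr
    have e11 : u ^ (3 - (N : ℝ) / 2) * ((h : ℝ) * k) ^ ((N : ℝ) / 2) + u * (PP h k / u) ^ A ≤
        c2 := by
      rw [hc2]
      gcongr
    calc ((h : ℝ) * k) ^ (-σ) *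
      (u ^ (1 / 2 + δ') + u ^ (3 - (N : ℝ) / 2) * ((h : ℝ) * k) ^ ((N : ℝ) / 2) +
          u * (PP h k / u) ^ A)
        = u ^ (1 / 2 + δ') * ((h : ℝ) * k) ^ (-σ) +
          ((h : ℝ) * k) ^ (-σ) * (u ^ (3 - (N : ℝ) / 2) * ((h : ℝ) * k) ^ ((N : ℝ) / 2) +
          u * (PP h k / u) ^ A) := by ring
      _ ≤ u ^ (1 / 2 + δ') * ((h : ℝ) ^ (-(1 / 2) : ℝ) * (k : ℝ) ^ (-(1 / 2) : ℝ)) +
          1 * c2 := by
          gcongr
      _ = _ := by ring
  refine (Finset.sum_le_sum fun h hh => Finset.sum_le_sum fun k hk => hterm h hh k hk).trans ?_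
  simp_rw [Finset.sum_add_distrib, ← Finset.mul_sum, Finset.sum_const, Nat.card_Icc,
    Nat.add_sub_cancel, nsmul_eq_mul]
  rw [← Finset.sum_mul]
  set S : ℝ := ∑ h ∈ Finset.Icc 1 Y, (h : ℝ) ^ (-(1 / 2) : ℝ) with hS
  have hS0 : 0 ≤ S := Finset.sum_nonneg fun _ _ => by positivity
  have hS1 : S * S ≤ 4 * v := by
    have h1 := sum_inv_sqrt Y
    have h2 : S * S ≤ (2 * Real.sqrt Y) * (2 * Real.sqrt Y) :=
      mul_le_mul h1 h1 hS0 (by positivity)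
    have h3 : (2 * Real.sqrt Y) * (2 * Real.sqrt Y) = 4 * Y := by
      have := Real.mul_self_sqrt (by positivity : (0 : ℝ) ≤ Y)
      nlinarith
    rw [h3] at h2
    linarith
  have hb1 : u ^ (1 / 2 + δ') * (S * S) ≤ 4 * u ^ (1 - δ₁ / 2) := by
    calc u ^ (1 / 2 + δ') * (S * S) ≤ u ^ (1 / 2 + δ') * (4 * v) := by gcongr
      _ = 4 * (u ^ (1 / 2 + δ') * v) := by ring
      _ = 4 * u ^ (1 / 2 + δ' + (1 / 2 - δ₁)) := by rw [hv, ← Real.rpow_add hu0]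
      _ ≤ 4 * u ^ (1 - δ₁ / 2) := by
          have := Real.rpow_le_rpow_of_exponent_le hu
            (by linarith : 1 / 2 + δ' + (1 / 2 - δ₁) ≤ 1 - δ₁ / 2)
          linarith
  have hone : 1 ≤ u ^ (1 - δ₁ / 2) := Real.one_le_rpow hu (by linarith)
  have hb2 : (Y : ℝ) * (Y * c2) ≤ 2 := by
    have h1 : (Y : ℝ) * (Y * c2) ≤ v * (v * c2) := by gcongr
    refine h1.trans ?_
    have h2 : v * (v * c2) = v * v * (u ^ (3 - (N : ℝ) / 2) * v ^ (N : ℝ)) +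
        v * v * (u * (v ^ 2 / u) ^ A) := by
      rw [hc2]
      ring
    have hvN : v ^ (N : ℝ) = u ^ ((1 / 2 - δ₁) * N) := by rw [hv, ← Real.rpow_mul hu0.le]
    have h3 : v * v * (u ^ (3 - (N : ℝ) / 2) * v ^ (N : ℝ)) ≤ 1 := by
      rw [hvN, hv, ← Real.rpow_add hu0, ← Real.rpow_add hu0, ← Real.rpow_add hu0]
      apply Real.rpow_le_one_of_one_le_of_nonpos hu
      nlinarith
    have h4 : v * v * (u * (v ^ 2 / u) ^ A) ≤ 1 := by
      have h5 : v ^ 2 / u = u ^ (-(2 * δ₁)) := by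
        rw [hv, ← Real.rpow_natCast, ← Real.rpow_mul hu0.le]
        nth_rewrite 2 [← Real.rpow_one u]
        rw [← Real.rpow_sub hu0]
        congr 1
        push_cast
        ring
      rw [h5, ← Real.rpow_mul hu0.le, hv]
      nth_rewrite 3 [← Real.rpow_one u]
      rw [← Real.rpow_add hu0, ← Real.rpow_add hu0, ← Real.rpow_add hu0]
      apply Real.rpow_le_one_of_one_le_of_nonpos hu
      nlinarith
    rw [h2]
    linarith
  linarith

theorem mm (hAF : T_AF) (hWF : T_WF) (hO1 : T_O1) (hO2 : T_O2) (hTW : T_TW) (hPS : T_PS)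
    (hZQ : T_ZQ) : T_MM := by
  intro π δ₁ hδ₁ hδ₁'
  have hq : 1 ≤ π.q := by
    have := π.q_ne
    exact Nat.pos_of_ne_zero (NeZero.ne π.q)
  set A : ℝ := max 1 (1 / δ₁) with hA
  have hA1 : 1 ≤ A := le_max_left _ _
  have hA2 : 1 ≤ A * δ₁ := by
    have h1 : 1 / δ₁ ≤ A := le_max_right _ _
    have h2 : 1 / δ₁ * δ₁ ≤ A * δ₁ := by gcongr
    rw [one_div, inv_mul_cancel₀ hδ₁.ne'] at h2
    exact h2
  set δ' : ℝ := min (δ₁ / 2) (1 / 10) with hδ'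
  have hδ'0 : 0 < δ' := lt_min (by linarith) (by norm_num)
  have hδ'1 : δ' ≤ δ₁ / 2 := min_le_left _ _
  have hδ'2 : δ' ≤ 1 / 10 := min_le_right _ _
  refine ⟨⌈4 + 2 * A + 2 + 4 / δ₁⌉₊, ?_⟩
  intro N hN
  have hN' : 4 + 2 * A + 2 + 4 / δ₁ ≤ (N : ℝ) := (Nat.le_ceil _).trans (by exact_mod_cast hN)
  have h4δ : 0 < 4 / δ₁ := by positivity
  have hNr : (4 : ℝ) ≤ N := by linarith
  have hN4 : 4 ≤ N := by exact_mod_cast hNr
  have hNδ : 4 ≤ (N : ℝ) * δ₁ := by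
    have h1 : 4 / δ₁ ≤ N := by linarith
    rwa [div_le_iff₀ hδ₁] at h1
  obtain ⟨CT, hCT, hT⟩ := hTW N π A δ' hN4 hA1 (by linarith) hδ'0 hδ'2
  obtain ⟨⟨x₀, hx₀, hzneg⟩, _, _⟩ := hZQ π.q hq
  set σ₁ : ℝ := min (1 / 2 + δ' / 2) (3 / 4 - x₀ / 4) with hσ₁
  have hσ₁a : σ₁ ≤ 1 / 2 + δ' / 2 := min_le_left _ _
  have hσ₁b : σ₁ ≤ 3 / 4 - x₀ / 4 := min_le_right _ _
  refine ⟨6 * CT, δ₁ / 2, σ₁, by positivity, by positivity, lt_min (by linarith) (by linarith), ?_⟩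
  intro σ u b Y hσ1 hσ2 hu hb hY
  have hu0 : 0 < u := by linarith
  have hLi := W_L_integrable hAF hWF hO1 hO2 N hN4 π σ u (by linarith) (by linarith) hu
  have hLi' : Integrable (fun t : ℝ => ((W N u t * ‖π.L (σ + t * I)‖ ^ 2 : ℝ) : ℂ))
      (volume.restrict (Ioi 0)) := hLi.ofReal
  -- the expansion of the integrand
  set co2 : ℕ → ℕ → ℂ := fun h k => ((b h * b k * ((h : ℝ) * k) ^ (-σ) : ℝ) : ℂ) with hco2
  set cc : ℕ → ℕ → ℂ := fun h k => co π h * (starRingEnd ℂ) (co π k) with hcc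
  set f : ℕ → ℕ → ℝ → ℂ := fun h k t => ((W N u t * ‖π.L (σ + t * I)‖ ^ 2 : ℝ) : ℂ) *
    ei (t * (Real.log k - Real.log h)) with hf
  have hfi : ∀ h k, Integrable (f h k) (volume.restrict (Ioi 0)) := by
    intro h k
    refine Integrable.mul_bdd (c := 1) hLi' (continuous_ei_mul _).aestronglyMeasurable ?_
    filter_upwards with t
    rw [norm_ei]
  have hexp : ∀ t : ℝ, ((W N u t * (‖π.L (σ + t * I)‖ ^ 2 * ‖Bf π b Y (σ + t * I)‖ ^ 2) : ℝ) : ℂ) =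
      ∑ h ∈ Finset.Icc 1 Y, ∑ k ∈ Finset.Icc 1 Y, co2 h k * (cc h k * f h k t) := by
    intro t
    rw [← mul_assoc, Complex.ofReal_mul, Bf_sq, Finset.mul_sum]
    refine Finset.sum_congr rfl fun h _ => ?_
    rw [Finset.mul_sum]
    refine Finset.sum_congr rfl fun k _ => ?_
    rw [hco2, hcc, hf]
    ring
  have hgi : ∀ h k, Integrable (fun t => co2 h k * (cc h k * f h k t))
      (volume.restrict (Ioi 0)) := fun h k => ((hfi h k).const_mul _).const_mul _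
  have hsumi : Integrable (fun t : ℝ => ∑ h ∈ Finset.Icc 1 Y, ∑ k ∈ Finset.Icc 1 Y,
      co2 h k * (cc h k * f h k t)) (volume.restrict (Ioi 0)) :=
    integrable_finsetSum _ fun h _ => integrable_finsetSum _ fun k _ => hgi h k
  have hci : Integrable (fun t : ℝ =>
      ((W N u t * (‖π.L (σ + t * I)‖ ^ 2 * ‖Bf π b Y (σ + t * I)‖ ^ 2) : ℝ) : ℂ))
      (volume.restrict (Ioi 0)) := by
    simp_rw [hexp]
    exact hsumi
  refine ⟨hci.re, ?_⟩
  set It : ℝ := ∫ t in Ioi (0 : ℝ), W N u t * (‖π.L (σ + t * I)‖ ^ 2 *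
    ‖Bf π b Y (σ + t * I)‖ ^ 2) with hIt
  have hItc : ((It : ℝ) : ℂ) = ∑ h ∈ Finset.Icc 1 Y, ∑ k ∈ Finset.Icc 1 Y,
      co2 h k * (cc h k * ∫ t in Ioi (0 : ℝ), f h k t) := by
    rw [hIt, ← integral_complex_ofReal]
    simp_rw [hexp]
    rw [integral_finsetSum _ fun h _ => integrable_finsetSum _ fun k _ => hgi h k]
    refine Finset.sum_congr rfl fun h _ => ?_
    rw [integral_finsetSum _ fun k _ => hgi h k]
    refine Finset.sum_congr rfl fun k _ => ?_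
    rw [integral_const_mul, integral_const_mul]
  -- the main term
  set W0 : ℝ := ∫ t in Ioi (0 : ℝ), W N u t * (π.q * t / (2 * Real.pi)) ^ (1 - 2 * σ) with hW0
  have hW0n : 0 ≤ W0 := by
    refine setIntegral_nonneg measurableSet_Ioi ?_
    intro t ht
    have ht0 : (0 : ℝ) < t := ht
    have := W_nonneg (N := N) (by omega) hu0 ht0
    have hpi := Real.pi_pos
    positivity
  set M : ℕ → ℕ → ℝ := fun h k => u * zq π.q (2 * σ) * PP h k ^ (-σ) +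
    W0 * zq π.q (2 - 2 * σ) * PP h k ^ (σ - 1) with hM
  set Mr : ℝ := ∑ h ∈ Finset.Icc 1 Y, ∑ k ∈ Finset.Icc 1 Y,
    b h * b k * ((h : ℝ) * k) ^ (-σ) * M h k with hMr
  have hMeq : Mr = u * zq π.q (2 * σ) * Qf b Y (2 * σ) +
      W0 * zq π.q (2 - 2 * σ) * Qd b Y σ := by
    rw [hMr]
    unfold Qf Qd
    rw [Finset.mul_sum, Finset.mul_sum, ← Finset.sum_add_distrib]
    refine Finset.sum_congr rfl fun h hh => ?_
    rw [Finset.mul_sum, Finset.mul_sum, ← Finset.sum_add_distrib]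
    refine Finset.sum_congr rfl fun k hk => ?_
    have hh1 : 1 ≤ h := (Finset.mem_Icc.mp hh).1
    have hk1 : 1 ≤ k := (Finset.mem_Icc.mp hk).1
    have h0 : (0 : ℝ) < h := by exact_mod_cast (by omega : 0 < h)
    have k0 : (0 : ℝ) < k := by exact_mod_cast (by omega : 0 < k)
    have g0 : (0 : ℝ) < Nat.gcd h k := by
      exact_mod_cast Nat.gcd_pos_of_pos_left _ hh1
    have e1 : ((h : ℝ) * k) ^ (-σ) * PP h k ^ (-σ) =
        (Nat.gcd h k : ℝ) ^ (2 * σ) * ((h : ℝ) * k) ^ (-(2 * σ)) := by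
      unfold PP
      rw [Real.div_rpow (by positivity) (by positivity), ← Real.rpow_natCast,
        ← Real.rpow_mul g0.le, mul_div_assoc', ← Real.rpow_add (by positivity), div_eq_mul_inv,
        ← Real.rpow_neg g0.le, mul_comm]
      congr 2
      · push_cast
        ring
      · ring
    rw [hM]
    simp only
    calc b h * b k * ((h : ℝ) * k) ^ (-σ) * (u * zq π.q (2 * σ) * PP h k ^ (-σ) +
          W0 * zq π.q (2 - 2 * σ) * PP h k ^ (σ - 1))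
        = u * zq π.q (2 * σ) * (b h * b k * (((h : ℝ) * k) ^ (-σ) * PP h k ^ (-σ))) +
          W0 * zq π.q (2 - 2 * σ) * (b h * b k * (((h : ℝ) * k) ^ (-σ) * PP h k ^ (σ - 1))) := by
          ring
      _ = _ := by rw [e1]
  -- the error
  have herr : ‖((It : ℝ) : ℂ) - ((Mr : ℝ) : ℂ)‖ ≤ CT * (6 * u ^ (1 - δ₁ / 2)) := by
    have h1 : ((It : ℝ) : ℂ) - ((Mr : ℝ) : ℂ) = ∑ h ∈ Finset.Icc 1 Y, ∑ k ∈ Finset.Icc 1 Y,
        co2 h k * (cc h k * (∫ t in Ioi (0 : ℝ), f h k t) - ((M h k : ℝ) : ℂ)) := by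
      rw [hItc, hMr]
      push_cast
      rw [← Finset.sum_sub_distrib]
      refine Finset.sum_congr rfl fun h _ => ?_
      rw [← Finset.sum_sub_distrib]
      refine Finset.sum_congr rfl fun k _ => ?_
      rw [hco2]
      push_cast
      ring
    rw [h1]
    have h2 : ∀ h ∈ Finset.Icc 1 Y, ∀ k ∈ Finset.Icc 1 Y,
        ‖co2 h k * (cc h k * (∫ t in Ioi (0 : ℝ), f h k t) - ((M h k : ℝ) : ℂ))‖ ≤
        CT * (((h : ℝ) * k) ^ (-σ) *
      (u ^ (1 / 2 + δ') + u ^ (3 - (N : ℝ) / 2) * ((h : ℝ) * k) ^ ((N : ℝ) / 2) +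
          u * (PP h k / u) ^ A)) := by
      intro h hh k hk
      have hh1 : 1 ≤ h := (Finset.mem_Icc.mp hh).1
      have hk1 : 1 ≤ k := (Finset.mem_Icc.mp hk).1
      have hPP0 : 0 < PP h k := by linarith [PP_ge_one hh1 hk1]
      have hnn : 0 ≤ CT * (((h : ℝ) * k) ^ (-σ) *
        (u ^ (1 / 2 + δ') + u ^ (3 - (N : ℝ) / 2) * ((h : ℝ) * k) ^ ((N : ℝ) / 2) +
          u * (PP h k / u) ^ A)) := by positivity
      by_cases c1 : Nat.Coprime h π.q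
      · by_cases c2 : Nat.Coprime k π.q
        · have h3 := hT σ u h k hσ1 (by linarith) hu hh1 hk1 c1 c2
          rw [norm_mul]
          have h4 : ‖co2 h k‖ ≤ ((h : ℝ) * k) ^ (-σ) := by
            rw [hco2]
            simp only
            rw [Complex.norm_real, Real.norm_eq_abs, abs_mul, abs_mul,
              abs_of_nonneg (by positivity : 0 ≤ ((h : ℝ) * k) ^ (-σ))]
            have h5 : |b h| * |b k| ≤ 1 := mul_le_one₀ (hb.le h) (abs_nonneg _) (hb.le k)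
            calc |b h| * |b k| * ((h : ℝ) * k) ^ (-σ) ≤ 1 * ((h : ℝ) * k) ^ (-σ) := by gcongr
              _ = _ := one_mul _
          calc ‖co2 h k‖ * ‖cc h k * (∫ t in Ioi (0 : ℝ), f h k t) - ((M h k : ℝ) : ℂ)‖
              ≤ ((h : ℝ) * k) ^ (-σ) * (CT * (u ^ (1 / 2 + δ') +
                u ^ (3 - (N : ℝ) / 2) * ((h : ℝ) * k) ^ ((N : ℝ) / 2) +
                u * (PP h k / u) ^ A)) := by
                gcongr
            _ = _ := by ring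
        · have h3 : co2 h k = 0 := by
            rw [hco2]
            simp only
            rw [hb.cop k c2]
            simp
          rw [h3, zero_mul, norm_zero]
          exact hnn
      · have h3 : co2 h k = 0 := by
          rw [hco2]
          simp only
          rw [hb.cop h c1]
          simp
        rw [h3, zero_mul, norm_zero]
        exact hnn
    refine (norm_sum_le_of_le _ fun h hh => norm_sum_le_of_le _ fun k hk =>
      h2 h hh k hk).trans ?_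
    simp_rw [← Finset.mul_sum]
    have h5 := sum_err δ₁ δ' A N hδ₁ hδ₁' hδ'1 hA1 hA2 hNδ σ u Y hσ1.le hu hY
    gcongr
  have herr' : It ≤ Mr + CT * (6 * u ^ (1 - δ₁ / 2)) := by
    rw [← Complex.ofReal_sub, Complex.norm_real, Real.norm_eq_abs] at herr
    linarith [le_abs_self (It - Mr)]
  have hneg : W0 * zq π.q (2 - 2 * σ) * Qd b Y σ ≤ 0 := by
    have h1 := hzneg (2 - 2 * σ) (by linarith) (by linarith)
    have h2 := hPS b Y σ (by linarith) (by linarith)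
    have h3 : 0 ≤ W0 * (-zq π.q (2 - 2 * σ)) * Qd b Y σ := by
      have : 0 ≤ -zq π.q (2 - 2 * σ) := by linarith
      positivity
    linarith
  have hu1 : u ^ (1 - δ₁ / 2) = u * u ^ (-(δ₁ / 2)) := by
    rw [show 1 - δ₁ / 2 = 1 + -(δ₁ / 2) by ring, Real.rpow_add hu0, Real.rpow_one]
  calc It ≤ Mr + CT * (6 * u ^ (1 - δ₁ / 2)) := herr'
    _ ≤ u * zq π.q (2 * σ) * Qf b Y (2 * σ) + CT * (6 * u ^ (1 - δ₁ / 2)) := by
        rw [hMeq]
        linarith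
    _ = u * (zq π.q (2 * σ) * Qf b Y (2 * σ) + 6 * CT * u ^ (-(δ₁ / 2))) := by
        rw [hu1]
        ring

end Pool.Agent.H42.PZ
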